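import Mathlib

set_option autoImplicit false

open Set Filter Topology

namespace Pool.Agent.H947R3

/-- From the doubling-type inequality for the distribution function to a linear lower bound on its
decrease. -/
theorem linear_decay {a : ℝ → ℝ} {D t s : ℝ} (hts : t < s) (hD : 0 ≤ D)
    (hanti : ∀ x y, t ≤ x → x ≤ y → y ≤ s → a y ≤ a x) (hpos : 0 < a s)
    (hineq : ∀ x h, t ≤ x → 0 < h → x + h ≤ s → h * a (x + h) ≤ D * a x * (a x - a (x + h))) :
    s - t ≤ D * (a t - a s) := by
  set R : ℝ := (s - t) * ((a t - a s) / a s) with hR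
  have main : ∀ N : ℕ, 0 < N → s - t ≤ D * (a t - a s) + R * (1 / (N : ℝ)) := by
    intro N hN
    have hNr : (0 : ℝ) < N := by exact_mod_cast hN
    set h : ℝ := (s - t) / N with hh
    have hhpos : 0 < h := div_pos (by linarith) hNr
    set p : ℕ → ℝ := fun i => t + i * h with hp
    have hp0 : p 0 = t := by simp [hp]
    have hpN : p N = s := by simp only [hp, hh]; field_simp; ring
    have hps : ∀ i, p (i + 1) = p i + h := by intro i; simp only [hp]; push_cast; ring
    have hpt : ∀ i, t ≤ p i := by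
      intro i; simp only [hp]
      have : (0 : ℝ) ≤ (i : ℝ) * h := by positivity
      linarith
    have hple : ∀ i, i ≤ N → p i ≤ s := by
      intro i hi
      rw [← hpN]
      simp only [hp]
      have h1 : (i : ℝ) ≤ N := by exact_mod_cast hi
      nlinarith
    have hap : ∀ i, i ≤ N → a s ≤ a (p i) := fun i hi => hanti _ _ (hpt i) (hple i hi) le_rfl
    have step : ∀ i ∈ Finset.range N,
        h * (1 - (a (p i) - a (p (i + 1))) / a s) ≤ D * (a (p i) - a (p (i + 1))) := by
      intro i hi
      have hi' : i + 1 ≤ N := Finset.mem_range.1 hi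
      have h1 := hap i (by omega)
      have h2 : 0 < a (p i) := hpos.trans_le h1
      have h3 : a (p (i + 1)) ≤ a (p i) := hanti _ _ (hpt i) (by rw [hps]; linarith) (hple _ hi')
      have h4 := hineq (p i) h (hpt i) hhpos (by rw [← hps]; exact hple _ hi')
      rw [← hps] at h4
      have h5 : h * (a (p (i + 1)) / a (p i)) ≤ D * (a (p i) - a (p (i + 1))) := by
        rw [← mul_div_assoc, div_le_iff₀ h2]
        linarith
      have h6 : (a (p i) - a (p (i + 1))) / a (p i) ≤ (a (p i) - a (p (i + 1))) / a s := by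
        apply div_le_div_of_nonneg_left (by linarith) hpos h1
      have h7 : a (p (i + 1)) / a (p i) = 1 - (a (p i) - a (p (i + 1))) / a (p i) := by
        field_simp; ring
      rw [h7] at h5
      have h8 : h * (1 - (a (p i) - a (p (i + 1))) / a s) ≤
          h * (1 - (a (p i) - a (p (i + 1))) / a (p i)) :=
        mul_le_mul_of_nonneg_left (by linarith) hhpos.le
      linarith
    have hsum := Finset.sum_le_sum step
    rw [← Finset.mul_sum, ← Finset.mul_sum, Finset.sum_sub_distrib, ← Finset.sum_div,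
      Finset.sum_range_sub', hp0, hpN] at hsum
    simp only [Finset.sum_const, Finset.card_range, nsmul_eq_mul, mul_one] at hsum
    have h9 : h * ((N : ℝ) - (a t - a s) / a s) = (s - t) - R * (1 / (N : ℝ)) := by
      simp only [hh, hR]; field_simp
    rw [h9] at hsum
    linarith
  have hlim : Tendsto (fun N : ℕ => D * (a t - a s) + R * (1 / (N : ℝ))) atTop
      (𝓝 (D * (a t - a s) + R * 0)) :=
    tendsto_const_nhds.add (tendsto_const_nhds.mul tendsto_one_div_atTop_nhds_zero_nat)
  rw [mul_zero, add_zero] at hlim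
  apply ge_of_tendsto hlim
  filter_upwards [eventually_gt_atTop 0] with N hN using main N hN

/-- The abstract oscillation estimate. -/
theorem abstract_osc {a I f d : ℝ → ℝ} {D t0 s s' : ℝ} (hts : t0 < s) (hss : s < s') (hD : 0 ≤ D)
    (hanti : ∀ x y, t0 ≤ x → x ≤ y → y ≤ s' → a y ≤ a x) (hpos : 0 < a s')
    (hineq : ∀ x h, t0 ≤ x → 0 < h → x + h ≤ s' → h * a (x + h) ≤ D * a x * (a x - a (x + h)))
    (hI : ∀ x y, t0 ≤ x → x < y → y ≤ s' → d x * (a x - a y) ≤ I x - I y)
    (hId : ∀ x y, t0 ≤ x → x ≤ y → y ≤ s' → I y ≤ I x) (hI0 : 0 ≤ I s')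
    (hf : ∀ x y, t0 ≤ x → x ≤ y → y ≤ s' → f y - f x ≤ d y * (y - x))
    (hdn : ∀ x, t0 ≤ x → x ≤ s' → 0 ≤ d x) :
    f s - f t0 ≤ D * I t0 := by
  -- choose `N` with `s + (s - t0)/N < s'`
  obtain ⟨N, hN⟩ := exists_nat_gt ((s - t0) / (s' - s))
  have hN0 : (0 : ℝ) < N := lt_of_le_of_lt (div_nonneg (by linarith) (by linarith)) hN
  have hN1 : 0 < N := by exact_mod_cast hN0
  set h : ℝ := (s - t0) / N with hh
  have hhpos : 0 < h := div_pos (by linarith) hN0
  have hhs : s + h < s' := by
    have h1 : (s - t0) < N * (s' - s) := by rwa [div_lt_iff₀ (by linarith)] at hN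
    have h2 : h < s' - s := by
      rw [hh, div_lt_iff₀ hN0]; linarith
    linarith
  set p : ℕ → ℝ := fun i => t0 + i * h with hp
  have hp0 : p 0 = t0 := by simp [hp]
  have hpN : p N = s := by simp only [hp, hh]; field_simp; ring
  have hps : ∀ i, p (i + 1) = p i + h := by intro i; simp only [hp]; push_cast; ring
  have hpt : ∀ i, t0 ≤ p i := by
    intro i; simp only [hp]
    have : (0 : ℝ) ≤ (i : ℝ) * h := by positivity
    linarith
  have hple : ∀ i, i ≤ N + 1 → p i ≤ s' := by
    intro i hi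
    have h1 : (i : ℝ) ≤ (N : ℝ) + 1 := by exact_mod_cast hi
    have h2 : p i ≤ s + h := by
      rw [← hpN]
      simp only [hp]
      nlinarith
    linarith
  have step : ∀ i ∈ Finset.range N, f (p (i + 1)) - f (p i) ≤ D * (I (p (i + 1)) - I (p (i + 1 + 1))) := by
    intro i hi
    have hi' : i + 1 ≤ N := Finset.mem_range.1 hi
    have h1 := hf (p i) (p (i + 1)) (hpt i) (by rw [hps]; linarith) (hple _ (by omega))
    have h2 : p (i + 1 + 1) - p (i + 1) ≤ D * (a (p (i + 1)) - a (p (i + 1 + 1))) := by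
      apply linear_decay (by rw [hps (i + 1)]; linarith) hD
      · intro x y hx hxy hy
        exact hanti x y ((hpt _).trans hx) hxy (hy.trans (hple _ (by omega)))
      · exact hpos.trans_le (hanti _ _ (hpt _) (hple _ (by omega)) le_rfl)
      · intro x h' hx hh' hxh
        exact hineq x h' ((hpt _).trans hx) hh' (hxh.trans (hple _ (by omega)))
    have h3 := hI (p (i + 1)) (p (i + 1 + 1)) (hpt _) (by rw [hps (i + 1)]; linarith)
      (hple _ (by omega))
    have h4 := hdn (p (i + 1)) (hpt _) (hple _ (by omega))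
    have h5 : p (i + 1) - p i = p (i + 1 + 1) - p (i + 1) := by
      rw [hps (i + 1), hps i]; ring
    calc f (p (i + 1)) - f (p i) ≤ d (p (i + 1)) * (p (i + 1) - p i) := h1
      _ = d (p (i + 1)) * (p (i + 1 + 1) - p (i + 1)) := by rw [h5]
      _ ≤ d (p (i + 1)) * (D * (a (p (i + 1)) - a (p (i + 1 + 1)))) :=
          mul_le_mul_of_nonneg_left h2 h4
      _ = D * (d (p (i + 1)) * (a (p (i + 1)) - a (p (i + 1 + 1)))) := by ring
      _ ≤ D * (I (p (i + 1)) - I (p (i + 1 + 1))) := mul_le_mul_of_nonneg_left h3 hD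
  have hsum := Finset.sum_le_sum step
  rw [← Finset.mul_sum, Finset.sum_range_sub (fun i => f (p i)),
    Finset.sum_range_sub' (fun i => I (p (i + 1))), hp0, hpN] at hsum
  have h6 : I (p (0 + 1)) ≤ I t0 := hId _ _ le_rfl (hpt _) (hple _ (by omega))
  have h7 : 0 ≤ I (p (N + 1)) := hI0.trans (hId _ _ (hpt _) (hple _ le_rfl) le_rfl)
  have h8 : I (p (0 + 1)) - I (p (N + 1)) ≤ I t0 := by linarith
  exact hsum.trans (mul_le_mul_of_nonneg_left h8 hD)

end Pool.Agent.H947R3
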