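import Mathlib

set_option autoImplicit false

open MeasureTheory Set Filter Topology Laplacian InnerProductSpace

namespace Pool.Agent.H947R3

/-- Euclidean space. -/
abbrev E (n : ℕ) := EuclideanSpace ℝ (Fin n)

variable {n : ℕ}

/-- the `i`-th basis vector -/
noncomputable def bv (i : Fin n) : E n := EuclideanSpace.basisFun (Fin n) ℝ i

/-- the `i`-th partial derivative -/
noncomputable def pd (u : E n → ℝ) (i : Fin n) (x : E n) : ℝ := fderiv ℝ u x (bv i)

lemma bv_eq (i : Fin n) : (bv i : E n) = EuclideanSpace.single i (1 : ℝ) := by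
  simp [bv]

lemma lap_eq {u : E n → ℝ} {x : E n} (h : ContDiffAt ℝ 2 u x) :
    Δ u x = ∑ i, pd (pd u i) i x := by
  rw [laplacian_eq_iteratedFDeriv_orthonormalBasis u (EuclideanSpace.basisFun (Fin n) ℝ)]
  refine Finset.sum_congr rfl fun i _ => ?_
  rw [iteratedFDeriv_two_apply]
  have h1 : DifferentiableAt ℝ (fderiv ℝ u) x :=
    (h.fderiv_right (m := 1) (by norm_num)).differentiableAt (by norm_num)
  unfold pd
  rw [fderiv_clm_apply h1 (differentiableAt_const _)]
  simp [bv]

lemma contDiffOn_pd {Ω : Set (E n)} (hΩ : IsOpen Ω) {u : E n → ℝ} {k : ℕ}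
    (hu : ContDiffOn ℝ (k + 1 : ℕ) u Ω) (i : Fin n) : ContDiffOn ℝ k (pd u i) Ω := by
  have h1 : ContDiffOn ℝ k (fderiv ℝ u) Ω := by
    apply hu.fderiv_of_isOpen hΩ
    push_cast
    exact le_rfl
  exact h1.clm_apply contDiffOn_const

lemma continuousOn_pd {Ω : Set (E n)} (hΩ : IsOpen Ω) {u : E n → ℝ}
    (hu : ContDiffOn ℝ 1 u Ω) (i : Fin n) : ContinuousOn (pd u i) Ω := by
  have := contDiffOn_pd (k := 0) hΩ (by simpa using hu) i
  exact this.continuousOn

lemma contDiffOn_one_pd {Ω : Set (E n)} (hΩ : IsOpen Ω) {u : E n → ℝ}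
    (hu : ContDiffOn ℝ 2 u Ω) (i : Fin n) : ContDiffOn ℝ 1 (pd u i) Ω := by
  exact contDiffOn_pd (k := 1) hΩ (by simpa using hu) i

lemma continuousOn_lap {Ω : Set (E n)} (hΩ : IsOpen Ω) {u : E n → ℝ}
    (hu : ContDiffOn ℝ 2 u Ω) : ContinuousOn (Δ u) Ω := by
  have h1 : ContinuousOn (fun x => ∑ i, pd (pd u i) i x) Ω :=
    continuousOn_finsetSum _ fun i _ => continuousOn_pd hΩ (contDiffOn_one_pd hΩ hu i) i
  exact h1.congr fun x hx => lap_eq (hu.contDiffAt (hΩ.mem_nhds hx))

/-- The product of a function continuous on `Ω` and a continuous function supported in `Ω`. -/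
lemma continuous_mul_of_tsupport {Ω : Set (E n)} (hΩ : IsOpen Ω) {g ψ : E n → ℝ}
    (hg : ContinuousOn g Ω) (hψ : Continuous ψ) (hs : tsupport ψ ⊆ Ω) :
    Continuous (fun x => g x * ψ x) := by
  apply continuous_of_tsupport
  intro x hx
  have hx' : x ∈ Ω := hs (tsupport_mul_subset_right hx)
  exact (hg.continuousAt (hΩ.mem_nhds hx')).mul hψ.continuousAt

lemma integrable_mul_of_tsupport {Ω : Set (E n)} (hΩ : IsOpen Ω) {g ψ : E n → ℝ}
    (hg : ContinuousOn g Ω) (hψ : Continuous ψ) (hc : HasCompactSupport ψ) (hs : tsupport ψ ⊆ Ω) :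
    Integrable (fun x => g x * ψ x) := by
  apply (continuous_mul_of_tsupport hΩ hg hψ hs).integrable_of_hasCompactSupport
  exact hc.mul_left

lemma tsupport_pd_subset (ψ : E n → ℝ) (i : Fin n) : tsupport (pd ψ i) ⊆ tsupport ψ :=
  tsupport_fderiv_apply_subset ℝ _

lemma hasCompactSupport_pd {ψ : E n → ℝ} (hc : HasCompactSupport ψ) (i : Fin n) :
    HasCompactSupport (pd ψ i) :=
  hc.mono' (subset_closure.trans (tsupport_pd_subset ψ i))

lemma continuous_pd {ψ : E n → ℝ} (hψ : ContDiff ℝ 1 ψ) (i : Fin n) : Continuous (pd ψ i) :=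
  (hψ.continuous_fderiv (by norm_num)).clm_apply continuous_const

/-- Integration by parts. -/
theorem ibp {Ω : Set (E n)} (hΩ : IsOpen Ω) {z ψ : E n → ℝ} (hz : ContDiffOn ℝ 2 z Ω)
    (hψ : ContDiff ℝ 1 ψ) (hc : HasCompactSupport ψ) (hs : tsupport ψ ⊆ Ω) :
    ∫ x, ∑ i, pd z i x * pd ψ i x = - ∫ x, Δ z x * ψ x := by
  have hint1 : ∀ i, Integrable (fun x => pd z i x * pd ψ i x) := fun i =>
    integrable_mul_of_tsupport hΩ (contDiffOn_one_pd hΩ hz i).continuousOn (continuous_pd hψ i)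
      (hasCompactSupport_pd hc i) ((tsupport_pd_subset ψ i).trans hs)
  have hint2 : ∀ i, Integrable (fun x => pd (pd z i) i x * ψ x) := fun i =>
    integrable_mul_of_tsupport hΩ (continuousOn_pd hΩ (contDiffOn_one_pd hΩ hz i) i)
      hψ.continuous hc hs
  have hint3 : ∀ i, Integrable (fun x => pd z i x * ψ x) := fun i =>
    integrable_mul_of_tsupport hΩ (contDiffOn_one_pd hΩ hz i).continuousOn
      hψ.continuous hc hs
  have key : ∀ i, ∫ x, pd z i x * pd ψ i x = - ∫ x, pd (pd z i) i x * ψ x := by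
    intro i
    exact integral_mul_fderiv_eq_neg_fderiv_mul_of_integrable (f := pd z i) (g := ψ) (v := bv i)
      (hint2 i) (hint1 i) (hint3 i)
      (fun x hx => ((contDiffOn_one_pd hΩ hz i).contDiffAt
        (hΩ.mem_nhds (hs hx))).differentiableAt (by norm_num))
      (fun x _ => hψ.differentiable (by norm_num) x)
  rw [integral_finsetSum _ (fun i _ => hint1 i), Finset.sum_congr rfl (fun i _ => key i),
    Finset.sum_neg_distrib, ← integral_finsetSum _ (fun i _ => hint2 i)]
  congr 1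
  apply integral_congr_ae
  filter_upwards with x
  by_cases hx : x ∈ Ω
  · rw [lap_eq (hz.contDiffAt (hΩ.mem_nhds hx)), Finset.sum_mul]
  · have : ψ x = 0 := image_eq_zero_of_notMem_tsupport (fun h => hx (hs h))
    simp [this]

/-- Second derivative of the restriction to a line. -/
lemma deriv2_line {s : E n → ℝ} {x : E n} (hs : ContDiffAt ℝ 2 s x) (i : Fin n) :
    deriv (deriv (fun t : ℝ => s (x + t • bv i))) 0 = pd (pd s i) i x := by
  have hev : ∀ᶠ y in 𝓝 x, DifferentiableAt ℝ s y := by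
    have h1 := hs.eventually (by simp)
    filter_upwards [h1] with y hy
    exact hy.differentiableAt (by norm_num)
  have hcont : Tendsto (fun t : ℝ => x + t • (bv i : E n)) (𝓝 0) (𝓝 x) := by
    have : Continuous (fun t : ℝ => x + t • (bv i : E n)) := by fun_prop
    simpa using this.tendsto 0
  have hline : ∀ t : ℝ, HasDerivAt (fun t : ℝ => x + t • (bv i : E n)) (bv i) t := by
    intro t
    simpa using ((hasDerivAt_id t).smul_const (bv i : E n)).const_add x
  have h1 : deriv (fun t : ℝ => s (x + t • bv i)) =ᶠ[𝓝 0] fun t => pd s i (x + t • bv i) := by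
    filter_upwards [hcont.eventually hev] with t ht
    exact (ht.hasFDerivAt.comp_hasDerivAt t (hline t)).deriv
  rw [h1.deriv_eq]
  have h2 : DifferentiableAt ℝ (pd s i) x := by
    have h3 : ContDiffAt ℝ 1 (fderiv ℝ s) x := hs.fderiv_right (m := 1) (by norm_num)
    exact (h3.differentiableAt (by norm_num)).clm_apply (differentiableAt_const _)
  have h3 : HasFDerivAt (pd s i) (fderiv ℝ (pd s i) x) (x + (0 : ℝ) • bv i) := by
    simpa using h2.hasFDerivAt
  exact (h3.comp_hasDerivAt 0 (hline 0)).deriv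

lemma deriv2_nonneg_of_isLocalMin (g : ℝ → ℝ) (hg : ContinuousAt g 0)
    (hmin : IsLocalMin g 0) : 0 ≤ deriv (deriv g) 0 := by
  by_contra hcon
  push Not at hcon
  have hd : deriv g 0 = 0 := hmin.deriv_eq_zero
  have hmax : IsLocalMax g 0 := isLocalMax_of_deriv_deriv_neg hcon hd hg
  have hconst : g =ᶠ[𝓝 0] fun _ => g 0 := by
    filter_upwards [hmax, hmin] with t h1 h2
    exact le_antisymm h1 h2
  have h1 : deriv g =ᶠ[𝓝 0] deriv (fun _ => g 0) := hconst.deriv
  have h2 : deriv (deriv g) 0 = deriv (deriv (fun _ : ℝ => g 0)) 0 := h1.deriv_eq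
  rw [h2] at hcon
  simp at hcon

/-- At a local minimum the Laplacian is nonnegative. -/
lemma lap_nonneg_of_isLocalMin {s : E n → ℝ} {x : E n} (hs : ContDiffAt ℝ 2 s x)
    (hmin : IsLocalMin s x) : 0 ≤ Δ s x := by
  rw [lap_eq hs]
  apply Finset.sum_nonneg
  intro i _
  rw [← deriv2_line hs i]
  have hcont : ContinuousAt (fun t : ℝ => x + t • (bv i : E n)) 0 := by fun_prop
  have hx0 : x + (0:ℝ) • (bv i : E n) = x := by simp
  apply deriv2_nonneg_of_isLocalMin
  · have hsc : ContinuousAt s (x + (0:ℝ) • bv i) := by rw [hx0]; exact hs.continuousAt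
    exact ContinuousAt.comp (f := fun t : ℝ => x + t • (bv i : E n)) (g := s) hsc hcont
  · have h1 : ∀ᶠ z in 𝓝 (x + (0:ℝ) • (bv i : E n)), s x ≤ s z := by rw [hx0]; exact hmin
    have h2 := hcont.eventually h1
    filter_upwards [h2] with t ht
    simpa [hx0] using ht

/-- A weak maximum principle: a function with positive `-Δ` on a bounded open set, nonnegative on
the boundary, is nonnegative. -/
theorem nonneg_of_superharmonic {Ω : Set (E n)} (hΩ : IsOpen Ω) (hb : Bornology.IsBounded Ω)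
    {w : E n → ℝ} (hw : ContDiffOn ℝ 2 w Ω) (hwc : ContinuousOn w (closure Ω))
    (hlap : ∀ x ∈ Ω, 0 < - Δ w x) (hbd : ∀ x ∈ frontier Ω, 0 ≤ w x) :
    ∀ x ∈ closure Ω, 0 ≤ w x := by
  intro x hx
  have hcomp : IsCompact (closure Ω) := hb.isCompact_closure
  obtain ⟨y, hy, hmin⟩ := hcomp.exists_isMinOn ⟨x, hx⟩ hwc
  have hyx : w y ≤ w x := hmin hx
  by_cases hyΩ : y ∈ Ω
  · have hloc : IsLocalMin w y := by
      filter_upwards [hΩ.mem_nhds hyΩ] with z hz
      exact hmin (subset_closure hz)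
    have h1 := lap_nonneg_of_isLocalMin (hw.contDiffAt (hΩ.mem_nhds hyΩ)) hloc
    have h2 := hlap y hyΩ
    linarith
  · have : y ∈ frontier Ω := by
      rw [frontier, hΩ.interior_eq]; exact ⟨hy, hyΩ⟩
    exact (hbd y this).trans hyx

end Pool.Agent.H947R3
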