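import Mathlib

set_option autoImplicit false

open MeasureTheory Set Filter Topology

namespace Pool.Agent.H947R3

/-- The properties of the nonlinearity `f` (with derivative `d`) on `(0,1)` which are used. -/
structure NL (f d : ℝ → ℝ) : Prop where
  hd : ∀ t ∈ Ioo (0 : ℝ) 1, HasDerivAt f (d t) t
  dcont : ContinuousOn d (Ioo 0 1)
  dmono : MonotoneOn d (Ioo 0 1)
  dnn : ∀ t ∈ Ioo (0 : ℝ) 1, 0 ≤ d t
  conv : ∀ s ∈ Ioo (0 : ℝ) 1, ∀ t ∈ Ioo (0 : ℝ) 1, f s + d s * (t - s) ≤ f t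
  one : ∀ t ∈ Ioo (0 : ℝ) 1, 1 ≤ f t
  blow : ∀ M : ℝ, ∃ t ∈ Ioo (0 : ℝ) 1, M ≤ f t

lemma NL.mono {f d : ℝ → ℝ} (h : NL f d) : MonotoneOn f (Ioo 0 1) := by
  intro s hs t ht hst
  have h1 := h.conv s hs t ht
  have h2 := h.dnn s hs
  nlinarith

/-- a continuous cutoff -/
noncomputable def chi (t : ℝ) : ℝ := max 0 (min 1 (4 * t - 1))

lemma chi_cont : Continuous chi := by unfold chi; fun_prop
lemma chi_nn (t : ℝ) : 0 ≤ chi t := le_max_left _ _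
lemma chi_le (t : ℝ) : chi t ≤ 1 := by
  unfold chi
  exact max_le (by norm_num) (min_le_left _ _)
lemma chi_zero {t : ℝ} (h : t ≤ 1 / 4) : chi t = 0 := by
  unfold chi
  apply max_eq_left
  exact (min_le_right _ _).trans (by linarith)
lemma chi_one {t : ℝ} (h : 1 / 2 ≤ t) : chi t = 1 := by
  unfold chi
  rw [min_eq_left (by linarith)]
  norm_num

lemma hasDerivAt_prim {g : ℝ → ℝ} (hg : ContinuousOn g (Ioo 0 1)) {t : ℝ} (ht : t ∈ Ioo (0 : ℝ) 1) :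
    HasDerivAt (fun t => ∫ s in (1 / 4 : ℝ)..t, g s) (g t) t := by
  apply intervalIntegral.integral_hasDerivAt_right
  · apply ContinuousOn.intervalIntegrable
    apply hg.mono
    intro s hs
    rw [mem_uIcc] at hs
    rcases hs with hs | hs
    · exact ⟨by linarith [hs.1], by linarith [hs.2, ht.2]⟩
    · exact ⟨by linarith [hs.1, ht.1], by linarith [hs.2]⟩
  · exact hg.stronglyMeasurableAtFilter isOpen_Ioo t ht
  · exact hg.continuousAt (isOpen_Ioo.mem_nhds ht)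

lemma prim_zero {g : ℝ → ℝ} (hz : ∀ s, s ≤ 1 / 4 → g s = 0) {t : ℝ} (ht : t ≤ 1 / 4) :
    ∫ s in (1 / 4 : ℝ)..t, g s = 0 := by
  have : ∫ s in (1 / 4 : ℝ)..t, g s = ∫ s in (1 / 4 : ℝ)..t, (0 : ℝ) := by
    apply intervalIntegral.integral_congr
    intro s hs
    rw [uIcc_of_ge ht] at hs
    exact hz s hs.2
  rw [this]; simp

lemma mono_of_deriv {G g : ℝ → ℝ} {a b : ℝ} (hab : a ≤ b)
    (hG : ∀ t ∈ Icc a b, HasDerivAt G (g t) t) (hg : ∀ t ∈ Icc a b, 0 ≤ g t) : G a ≤ G b := by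
  have h1 : MonotoneOn G (Icc a b) := by
    apply monotoneOn_of_deriv_nonneg (convex_Icc a b)
    · exact fun t ht => (hG t ht).continuousAt.continuousWithinAt
    · intro t ht
      exact (hG t (interior_subset ht)).differentiableAt.differentiableWithinAt
    · intro t ht
      rw [(hG t (interior_subset ht)).deriv]
      exact hg t (interior_subset ht)
  exact h1 (left_mem_Icc.2 hab) (right_mem_Icc.2 hab) hab

/-- The test functions for the integral estimate, and the pointwise inequality they satisfy. -/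
theorem NL.testFunctions {f d : ℝ → ℝ} (h : NL f d) :
    ∃ (Φ Ψ k : ℝ → ℝ) (c B : ℝ), 0 < c ∧ 0 ≤ B ∧
      (∀ t ∈ Ioo (0 : ℝ) 1, HasDerivAt Φ (k t) t) ∧
      (∀ t ∈ Ioo (0 : ℝ) 1, HasDerivAt Ψ ((k t) ^ 2) t) ∧
      ContinuousOn k (Ioo 0 1) ∧ (∀ t, 0 < t → t < 1 / 4 → Φ t = 0) ∧
      (∀ t, 0 < t → t < 1 / 4 → Ψ t = 0) ∧
      (∀ t ∈ Ioo (0 : ℝ) 1, c * (d t * Φ t) ≤ d t * Φ t ^ 2 - f t * Ψ t + 2 * c * B) ∧
      (∀ t ∈ Ioo (0 : ℝ) 1, 0 ≤ Φ t) ∧ MonotoneOn Φ (Ioo 0 1) ∧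
      (∀ M : ℝ, ∃ t ∈ Ioo (0 : ℝ) 1, M ≤ Φ t) := by
  set k : ℝ → ℝ := fun t => chi t * d t with hk
  have hkc : ContinuousOn k (Ioo 0 1) := chi_cont.continuousOn.mul h.dcont
  have hk2c : ContinuousOn (fun t => k t ^ 2) (Ioo 0 1) := hkc.pow 2
  set Φ : ℝ → ℝ := fun t => ∫ s in (1 / 4 : ℝ)..t, k s with hΦ
  set Ψ : ℝ → ℝ := fun t => ∫ s in (1 / 4 : ℝ)..t, k s ^ 2 with hΨ
  have hΦd : ∀ t ∈ Ioo (0 : ℝ) 1, HasDerivAt Φ (k t) t := fun t ht => hasDerivAt_prim hkc ht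
  have hΨd : ∀ t ∈ Ioo (0 : ℝ) 1, HasDerivAt Ψ ((k t) ^ 2) t := fun t ht => hasDerivAt_prim hk2c ht
  have hk0 : ∀ s, s ≤ 1 / 4 → k s = 0 := fun s hs => by simp [hk, chi_zero hs]
  have hΦ0 : ∀ t, t ≤ 1 / 4 → Φ t = 0 := fun t ht => prim_zero hk0 ht
  have hΨ0 : ∀ t, t ≤ 1 / 4 → Ψ t = 0 := fun t ht => prim_zero (fun s hs => by simp [hk0 s hs]) ht
  have hknn : ∀ t ∈ Ioo (0 : ℝ) 1, 0 ≤ k t := fun t ht => mul_nonneg (chi_nn t) (h.dnn t ht)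
  have hkd : ∀ t ∈ Ioo (0 : ℝ) 1, k t ≤ d t := fun t ht => by
    have := h.dnn t ht
    have h2 := chi_le t
    simp only [hk]; nlinarith
  -- monotonicity of `Φ`
  have hΦm : MonotoneOn Φ (Ioo 0 1) := by
    intro s hs t ht hst
    exact mono_of_deriv hst (fun r hr => hΦd r ⟨hs.1.trans_le hr.1, hr.2.trans_lt ht.2⟩)
      (fun r hr => hknn r ⟨hs.1.trans_le hr.1, hr.2.trans_lt ht.2⟩)
  have hΨm : MonotoneOn Ψ (Ioo 0 1) := by
    intro s hs t ht hst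
    exact mono_of_deriv hst (fun r hr => hΨd r ⟨hs.1.trans_le hr.1, hr.2.trans_lt ht.2⟩)
      (fun r hr => sq_nonneg _)
  have q0 : (1 / 8 : ℝ) ∈ Ioo (0 : ℝ) 1 := by constructor <;> norm_num
  have hq : (1 / 2 : ℝ) ∈ Ioo (0 : ℝ) 1 := by constructor <;> norm_num
  have hΦnn : ∀ t ∈ Ioo (0 : ℝ) 1, 0 ≤ Φ t := by
    intro t ht
    by_cases h1 : t ≤ 1 / 4
    · rw [hΦ0 t h1]
    · have := hΦm q0 ht (by linarith)
      rwa [hΦ0 _ (by norm_num)] at this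
  have hΨnn : ∀ t ∈ Ioo (0 : ℝ) 1, 0 ≤ Ψ t := by
    intro t ht
    by_cases h1 : t ≤ 1 / 4
    · rw [hΨ0 t h1]
    · have := hΨm q0 ht (by linarith)
      rwa [hΨ0 _ (by norm_num)] at this
  -- P2
  have key : ∀ T ∈ Ioo (0 : ℝ) 1, ∀ t ∈ Ioo (0 : ℝ) 1, t ≤ T →
      d T * Φ t - Ψ t ≤ d T * Φ T - Ψ T := by
    intro T hT t ht htT
    apply mono_of_deriv (G := fun r => d T * Φ r - Ψ r) (g := fun r => d T * k r - (k r) ^ 2) htT
    · intro r hr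
      have hr' : r ∈ Ioo (0 : ℝ) 1 := ⟨ht.1.trans_le hr.1, hr.2.trans_lt hT.2⟩
      exact ((hΦd r hr').const_mul (d T)).sub (hΨd r hr')
    · intro r hr
      have hr' : r ∈ Ioo (0 : ℝ) 1 := ⟨ht.1.trans_le hr.1, hr.2.trans_lt hT.2⟩
      have h1 := hknn r hr'
      have h2 := hkd r hr'
      have h3 := h.dmono hr' hT hr.2
      nlinarith
  have P2 : ∀ T ∈ Ioo (0 : ℝ) 1, Ψ T ≤ d T * Φ T := by
    intro T hT
    by_cases h1 : T ≤ 1 / 4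
    · rw [hΨ0 T h1, hΦ0 T h1]; simp
    · have := key T hT (1 / 8) q0 (by linarith)
      rw [hΨ0 _ (by norm_num), hΦ0 _ (by norm_num)] at this
      linarith
  -- P3
  have hfPhi : ∀ s ∈ Ioo (0 : ℝ) 1, ∀ t ∈ Ioo (0 : ℝ) 1, s ≤ t → f s - Φ s ≤ f t - Φ t := by
    intro s hs t ht hst
    apply mono_of_deriv (G := fun r => f r - Φ r) (g := fun r => d r - k r) hst
    · intro r hr
      have hr' : r ∈ Ioo (0 : ℝ) 1 := ⟨hs.1.trans_le hr.1, hr.2.trans_lt ht.2⟩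
      exact (h.hd r hr').sub (hΦd r hr')
    · intro r hr
      have hr' : r ∈ Ioo (0 : ℝ) 1 := ⟨hs.1.trans_le hr.1, hr.2.trans_lt ht.2⟩
      linarith [hkd r hr']
  have hfPhi2 : ∀ t ∈ Ioo (0 : ℝ) 1, 1 / 2 ≤ t → f t - Φ t ≤ f (1 / 2) - Φ (1 / 2) := by
    intro t ht hst
    have := mono_of_deriv (G := fun r => Φ r - f r) (g := fun r => k r - d r) hst
      (fun r hr => (hΦd r ⟨by linarith [hr.1], by linarith [hr.2, ht.2]⟩).sub
        (h.hd r ⟨by linarith [hr.1], by linarith [hr.2, ht.2]⟩))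
      (fun r hr => by simp [hk, chi_one hr.1])
    linarith
  set c : ℝ := f (1 / 2) with hc
  have hc1 : 1 ≤ c := h.one _ hq
  have P3 : ∀ t ∈ Ioo (0 : ℝ) 1, f t - Φ t ≤ c := by
    intro t ht
    have h0 := hΦnn _ hq
    by_cases h1 : 1 / 2 ≤ t
    · linarith [hfPhi2 t ht h1]
    · linarith [hfPhi t ht (1 / 2) hq (by linarith)]
  have P3' : ∀ t ∈ Ioo (0 : ℝ) 1, 0 ≤ f t - Φ t := by
    intro t ht
    by_cases h1 : t ≤ 1 / 4
    · rw [hΦ0 t h1]; linarith [h.one t ht]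
    · have := hfPhi _ q0 t ht (by linarith)
      rw [hΦ0 _ (by norm_num)] at this
      linarith [h.one _ q0]
  have P5 : ∀ M : ℝ, ∃ t ∈ Ioo (0 : ℝ) 1, M ≤ Φ t := by
    intro M
    obtain ⟨t, ht, hM⟩ := h.blow (M + c)
    exact ⟨t, ht, by linarith [P3 t ht]⟩
  -- P4
  obtain ⟨t1, ht1, hΦt1⟩ := P5 (4 * c)
  obtain ⟨t2', ht2', hft2'⟩ := h.blow (c + 2 * d t1 + 1)
  have hdt2' : ∀ t ∈ Ioo (0 : ℝ) 1, t2' ≤ t → 2 * d t1 ≤ d t := by
    intro t ht htt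
    have h1 := h.mono ht2' ht htt
    have h2 := h.conv t ht (1 / 2) hq
    have h3 := h.dnn t ht
    have h4 := h.dnn t1 ht1
    have h5 : t - 1 / 2 ≤ 1 := by linarith [ht.2]
    nlinarith
  set t2 : ℝ := max t1 t2' with ht2
  have ht2m : t2 ∈ Ioo (0 : ℝ) 1 := by
    rw [ht2]
    exact ⟨lt_max_of_lt_left ht1.1, max_lt ht1.2 ht2'.2⟩
  have P4 : ∀ t ∈ Ioo (0 : ℝ) 1, t2 ≤ t → 2 * c * d t ≤ d t * Φ t - Ψ t := by
    intro t ht htt
    have h1 := key t ht t1 ht1 ((le_max_left _ _).trans htt)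
    have h2 := P2 t1 ht1
    have h3 := hdt2' t ht ((le_max_right _ _).trans htt)
    have h4 := h.dnn t1 ht1
    have h5 := h.dnn t ht
    have h6 : (d t - d t1) * Φ t1 ≤ d t * Φ t - Ψ t := by nlinarith
    have h7 : 2 * c * d t ≤ (d t - d t1) * Φ t1 := by
      have h8 : d t / 2 ≤ d t - d t1 := by linarith
      calc 2 * c * d t = (d t / 2) * (4 * c) := by ring
        _ ≤ (d t - d t1) * Φ t1 := by
          apply mul_le_mul h8 hΦt1 (by linarith) (by linarith)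
    linarith
  set B : ℝ := d t2 * Φ t2 with hB
  have hB0 : 0 ≤ B := mul_nonneg (h.dnn _ ht2m) (hΦnn _ ht2m)
  refine ⟨Φ, Ψ, k, c, B, by linarith, hB0, hΦd, hΨd, hkc, fun t _ ht => hΦ0 t ht.le,
    fun t _ ht => hΨ0 t ht.le, ?_, hΦnn, hΦm, P5⟩
  intro t ht
  have e1 := P2 t ht
  have e2 := P3 t ht
  have e3 := P3' t ht
  have e4 := hΨnn t ht
  have e5 := hΦnn t ht
  have e6 := h.dnn t ht
  -- (f - Φ) Ψ ≤ c d Φ
  have e7 : (f t - Φ t) * Ψ t ≤ c * (d t * Φ t) := mul_le_mul e2 e1 e4 (by linarith)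
  have e8 : 2 * c * (d t * Φ t) ≤ Φ t * (d t * Φ t - Ψ t) + 2 * c * B := by
    by_cases h1 : t2 ≤ t
    · have := P4 t ht h1
      have h2 : Φ t * (2 * c * d t) ≤ Φ t * (d t * Φ t - Ψ t) := mul_le_mul_of_nonneg_left this e5
      have h3 : 0 ≤ 2 * c * B := by positivity
      nlinarith
    · have h2 : t ≤ t2 := by linarith
      have h3 : d t * Φ t ≤ B := mul_le_mul (h.dmono ht ht2m h2) (hΦm ht ht2m h2) e5
        (h.dnn _ ht2m)
      have h4 : 0 ≤ Φ t * (d t * Φ t - Ψ t) := mul_nonneg e5 (by linarith)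
      nlinarith
  nlinarith

end Pool.Agent.H947R3
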