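import Pool.Agent.H947R3.Stab
import Pool.Agent.H947R3.Ned

set_option autoImplicit false

open MeasureTheory Set Filter Topology Laplacian InnerProductSpace

namespace Pool.Agent.H947R3

variable {n : ℕ}

section
variable {Ω : Set (E n)} {u : E n → ℝ} (h : Adm Ω u) {κ : ℝ → ℝ} {ε : ℝ}
include h

lemma Adm.contOn : ContinuousOn u Ω := h.c2.continuousOn

lemma Adm.integrableOn_comp_mul (hε : 0 < ε) (hz : ∀ t, 0 < t → t < ε → κ t = 0)
    (hκ : ContinuousOn κ (Ioo 0 1)) {G : E n → ℝ} (hG : ContinuousOn G Ω) :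
    IntegrableOn (fun x => κ (u x) * G x) Ω := by
  have hK := h.superlevel_closed (ε := ε) hε
  have h1 : IntegrableOn (fun x => κ (u x) * G x) {x | x ∈ Ω ∧ ε ≤ u x} := by
    apply ContinuousOn.integrableOn_compact hK
    have hsub : {x | x ∈ Ω ∧ ε ≤ u x} ⊆ Ω := fun x hx => hx.1
    exact (hκ.comp (h.contOn.mono hsub) (fun x hx => ⟨h.pos x hx.1, h.lt x hx.1⟩)).mul (hG.mono hsub)
  apply h1.of_forall_sdiff_eq_zero h.opn.measurableSet
  intro x hx
  have h2 : u x < ε := by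
    by_contra hcon
    exact hx.2 ⟨hx.1, not_lt.1 hcon⟩
  rw [hz _ (h.pos x hx.1) h2, zero_mul]

lemma Adm.volume_lt_top : volume Ω < ⊤ := h.bdd.measure_lt_top

lemma Adm.exists_max (hne : Ω.Nonempty) : ∃ y ∈ Ω, ∀ x ∈ Ω, u x ≤ u y := by
  obtain ⟨x0, hx0⟩ := hne
  obtain ⟨y, hy, hmax⟩ := h.bdd.isCompact_closure.exists_isMaxOn ⟨x0, subset_closure hx0⟩ h.cont
  refine ⟨y, ?_, fun x hx => hmax (subset_closure hx)⟩
  by_contra hcon
  have : y ∈ frontier Ω := by rw [frontier, h.opn.interior_eq]; exact ⟨hy, hcon⟩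
  have h1 := h.bdry y this
  have h2 : u x0 ≤ u y := hmax (subset_closure hx0)
  have h3 := h.pos x0 hx0
  linarith

end

/-- Semi-stability: there is a positive strict supersolution of the linearised equation. -/
def Stable (Ω : Set (E n)) (V : E n → ℝ) : Prop :=
  ∀ φ : E n → ℝ, ContDiff ℝ 1 φ → HasCompactSupport φ → tsupport φ ⊆ Ω →
    ∫ x, V x * φ x ^ 2 ≤ ∫ x, ∑ i, (pd φ i x) ^ 2

lemma Adm.comp_cont {Ω : Set (E n)} {u : E n → ℝ} (h : Adm Ω u) {g : ℝ → ℝ}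
    (hg : ContinuousOn g (Ioo 0 1)) : ContinuousOn (fun x => g (u x)) Ω :=
  hg.comp h.contOn (fun x hx => ⟨h.pos x hx, h.lt x hx⟩)

/-- The integral estimate (Crandall–Rabinowitz, Nedev). -/
theorem nedev {Ω : Set (E n)} {u : E n → ℝ} (h : Adm Ω u) (hne : Ω.Nonempty) {f d : ℝ → ℝ}
    (hf : NL f d) {l : ℝ} (hl : 0 < l) (heq : ∀ x ∈ Ω, - Δ u x = l * f (u x))
    (hst : Stable Ω (fun x => l * d (u x)))
    {Φ Ψ k : ℝ → ℝ} {c B : ℝ} (hc : 0 < c)
    (hΦ : ∀ t ∈ Ioo (0 : ℝ) 1, HasDerivAt Φ (k t) t)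
    (hΨ : ∀ t ∈ Ioo (0 : ℝ) 1, HasDerivAt Ψ ((k t) ^ 2) t)
    (hk : ContinuousOn k (Ioo 0 1)) (hΦ0 : ∀ t, 0 < t → t < 1 / 4 → Φ t = 0)
    (hΨ0 : ∀ t, 0 < t → t < 1 / 4 → Ψ t = 0)
    (hP : ∀ t ∈ Ioo (0 : ℝ) 1, c * (d t * Φ t) ≤ d t * Φ t ^ 2 - f t * Ψ t + 2 * c * B) :
    IntegrableOn (fun x => d (u x) * Φ (u x)) Ω ∧
    ∫ x in Ω, d (u x) * Φ (u x) ≤ 2 * B * volume.real Ω := by
  have hΦc : ContinuousOn Φ (Ioo 0 1) := fun t ht => (hΦ t ht).continuousAt.continuousWithinAt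
  have hΨc : ContinuousOn Ψ (Ioo 0 1) := fun t ht => (hΨ t ht).continuousAt.continuousWithinAt
  have hfc : ContinuousOn f (Ioo 0 1) := fun t ht => (hf.hd t ht).continuousAt.continuousWithinAt
  have hε : (0 : ℝ) < 1 / 4 := by norm_num
  -- the energy identity for Ψ
  have en := h.energy hε hΨ0 hΨ (hk.pow 2)
  -- stability with `φ = Φ(u)`
  have hΦ1 : ContDiffOn ℝ 1 Φ (Ioo 0 1) := by
    have h1 : ∀ t ∈ Ioo (0 : ℝ) 1, deriv Φ t = k t := fun t ht => (hΦ t ht).deriv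
    rw [show (1 : WithTop ℕ∞) = 0 + 1 from rfl, contDiffOn_succ_iff_deriv_of_isOpen isOpen_Ioo]
    refine ⟨fun t ht => (hΦ t ht).differentiableAt.differentiableWithinAt, by simp, ?_⟩
    exact contDiffOn_zero.2 (hk.congr h1)
  have st := hst (cmp Ω Φ u) (h.contDiff_cmp hε hΦ0 hΦ1) (h.hasCompactSupport_cmp hε hΦ0)
    (h.tsupport_cmp_subset hε hΦ0)
  have e1 : (fun x => l * d (u x) * cmp Ω Φ u x ^ 2) =
      Ω.indicator (fun x => l * (d (u x) * Φ (u x) ^ 2)) := by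
    funext x
    by_cases hx : x ∈ Ω
    · rw [indicator_of_mem hx]; simp [cmp, hx]; ring
    · rw [indicator_of_notMem hx]; simp [cmp, hx]
  have e2 : (fun x => ∑ i, (pd (cmp Ω Φ u) i x) ^ 2) =
      Ω.indicator (fun x => k (u x) ^ 2 * ∑ i, (pd u i x) ^ 2) := by
    funext x
    by_cases hx : x ∈ Ω
    · rw [indicator_of_mem hx, Finset.mul_sum]
      refine Finset.sum_congr rfl fun i _ => ?_
      rw [h.pd_cmp hx (hΦ _ ⟨h.pos x hx, h.lt x hx⟩)]
      ring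
    · rw [indicator_of_notMem hx]
      refine Finset.sum_eq_zero fun i _ => ?_
      rw [pd_eq_zero_of_notMem (fun hh => hx (h.tsupport_cmp_subset hε hΦ0 hh)) i]
      simp
  rw [e1, e2, integral_indicator h.opn.measurableSet, integral_indicator h.opn.measurableSet,
    en] at st
  -- integrability
  have I1 : IntegrableOn (fun x => d (u x) * Φ (u x)) Ω := by
    have := h.integrableOn_comp_mul (κ := fun t => d t * Φ t) hε
      (fun t h1 h2 => by simp [hΦ0 t h1 h2]) (hf.dcont.mul hΦc) (G := fun _ => 1) continuousOn_const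
    simpa using this
  have I2 : IntegrableOn (fun x => d (u x) * Φ (u x) ^ 2) Ω := by
    have := h.integrableOn_comp_mul (κ := fun t => d t * Φ t ^ 2) hε
      (fun t h1 h2 => by simp [hΦ0 t h1 h2]) (hf.dcont.mul (hΦc.pow 2)) (G := fun _ => 1)
      continuousOn_const
    simpa using this
  have I3 : IntegrableOn (fun x => f (u x) * Ψ (u x)) Ω := by
    have := h.integrableOn_comp_mul (κ := fun t => f t * Ψ t) hε
      (fun t h1 h2 => by simp [hΨ0 t h1 h2]) (hfc.mul hΨc) (G := fun _ => 1)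
      continuousOn_const
    simpa using this
  have I4 : IntegrableOn (fun _ : E n => 2 * c * B) Ω := integrableOn_const h.volume_lt_top.ne
  have e3 : ∫ x in Ω, - Δ u x * Ψ (u x) = l * ∫ x in Ω, f (u x) * Ψ (u x) := by
    rw [← integral_const_mul]
    apply setIntegral_congr_fun h.opn.measurableSet
    intro x hx
    simp only [heq x hx]
    ring
  have e4 : ∫ x in Ω, l * (d (u x) * Φ (u x) ^ 2) = l * ∫ x in Ω, d (u x) * Φ (u x) ^ 2 :=
    integral_const_mul _ _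
  rw [e3, e4] at st
  have st' : ∫ x in Ω, d (u x) * Φ (u x) ^ 2 ≤ ∫ x in Ω, f (u x) * Ψ (u x) :=
    le_of_mul_le_mul_left st hl
  refine ⟨I1, ?_⟩
  have fin : ∫ x in Ω, c * (d (u x) * Φ (u x)) ≤
      ∫ x in Ω, (d (u x) * Φ (u x) ^ 2 - f (u x) * Ψ (u x) + 2 * c * B) := by
    apply setIntegral_mono_on (I1.const_mul c) ((I2.sub I3).add I4) h.opn.measurableSet
    intro x hx
    exact hP _ ⟨h.pos x hx, h.lt x hx⟩
  have e5 : ∫ x in Ω, (d (u x) * Φ (u x) ^ 2 - f (u x) * Ψ (u x) + 2 * c * B) =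
      (∫ x in Ω, d (u x) * Φ (u x) ^ 2) - (∫ x in Ω, f (u x) * Ψ (u x)) + volume.real Ω * (2 * c * B) := by
    have h1 := integral_add (I2.sub I3) I4
    have h2 := integral_sub I2 I3
    have h3 : ∫ x in Ω, (2 * c * B : ℝ) = volume.real Ω * (2 * c * B) := by
      rw [setIntegral_const, smul_eq_mul]
    rw [← h2, ← h3]
    exact h1
  rw [integral_const_mul, e5] at fin
  have : c * ∫ x in Ω, d (u x) * Φ (u x) ≤ c * (2 * B * volume.real Ω) := by
    nlinarith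
  exact le_of_mul_le_mul_left this hc

end Pool.Agent.H947R3
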