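import Pool.Agent.H947R3.Hess
import Pool.Agent.H947R3.Int

set_option autoImplicit false

open MeasureTheory Set Filter Topology Laplacian InnerProductSpace

namespace Pool.Agent.H947R3

variable {n : ℕ}

lemma QQ_trans {x0 y : E n} {a b : ℝ} (hy : y ∈ QQ x0 a) : QQ y b ⊆ QQ x0 (a + b) := by
  intro z hz j
  have h1 := hz j
  have h2 := hy j
  have h3 : z j - x0 j = (z j - y j) + (y j - x0 j) := by ring
  rw [h3]
  exact (abs_add_le _ _).trans (by linarith)

lemma ball_subset_QQ (x0 : E n) (ρ : ℝ) : Metric.ball x0 ρ ⊆ QQ x0 ρ := by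
  intro y hy j
  rw [Metric.mem_ball, dist_eq_norm] at hy
  have := PiLp.norm_apply_le (y - x0) j
  rw [Real.norm_eq_abs] at this
  exact (this.trans hy.le)

lemma exists_QQ_subset {Ω : Set (E n)} (hΩ : IsOpen Ω) {x0 : E n} (hx : x0 ∈ Ω) :
    ∃ ρ : ℝ, 0 < ρ ∧ QQ x0 (6 * ρ) ⊆ Ω := by
  obtain ⟨r, hr, hb⟩ := Metric.isOpen_iff.1 hΩ x0 hx
  refine ⟨r / (6 * (n + 2)), by positivity, ?_⟩
  intro y hy
  apply hb
  rw [Metric.mem_ball, EuclideanSpace.dist_eq]
  have h1 : ∑ i, dist (y i) (x0 i) ^ 2 ≤ ((n + 1) * (r / (n + 2))) ^ 2 := by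
    calc ∑ i, dist (y i) (x0 i) ^ 2 ≤ ∑ i : Fin n, (r / (n + 2)) ^ 2 := by
          apply Finset.sum_le_sum
          intro i _
          rw [Real.dist_eq]
          have h2 := hy i
          have h3 : 6 * (r / (6 * ((n : ℝ) + 2))) = r / (n + 2) := by field_simp
          rw [h3] at h2
          gcongr
      _ = n * (r / (n + 2)) ^ 2 := by simp
      _ ≤ ((n + 1) * (r / (n + 2))) ^ 2 := by
          rw [mul_pow]
          gcongr
          have : (0 : ℝ) ≤ n := Nat.cast_nonneg n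
          nlinarith
  calc Real.sqrt (∑ i, dist (y i) (x0 i) ^ 2) ≤ Real.sqrt (((n + 1) * (r / (n + 2))) ^ 2) :=
        Real.sqrt_le_sqrt h1
    _ = (n + 1) * (r / (n + 2)) := Real.sqrt_sq (by positivity)
    _ < r := by
        rw [mul_div_assoc', div_lt_iff₀ (by positivity)]
        nlinarith

lemma norm_fderiv_le_of_pd {v : E n → ℝ} {x : E n} {G : ℝ} (hG : 0 ≤ G)
    (h : ∀ i, |pd v i x| ≤ G) : ‖fderiv ℝ v x‖ ≤ (n + 1) * G := by
  have h1 := norm_sq_le_sum (fderiv ℝ v x)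
  have h2 : ∑ i, (fderiv ℝ v x (bv i)) ^ 2 ≤ ((n + 1) * G) ^ 2 := by
    calc ∑ i, (fderiv ℝ v x (bv i)) ^ 2 ≤ ∑ i : Fin n, G ^ 2 := by
          apply Finset.sum_le_sum
          intro i _
          have h3 : |fderiv ℝ v x (bv i)| ≤ G := h i
          rw [← sq_abs]
          gcongr
      _ = n * G ^ 2 := by simp
      _ ≤ ((n + 1) * G) ^ 2 := by
          rw [mul_pow]
          gcongr
          have : (0 : ℝ) ≤ n := Nat.cast_nonneg n
          nlinarith
  exact (pow_le_pow_iff_left₀ (norm_nonneg _) (by positivity) (by norm_num)).1 (h1.trans h2)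

/-- Local `C²` convergence of a monotone bounded sequence of solutions. -/
theorem local_conv {f d : ℝ → ℝ} (hf : NL f d) {Ω : Set (E n)} {ls : ℝ} (hls : 0 < ls) {m0 : ℝ}
    (hm0 : m0 ∈ Ioo (0 : ℝ) 1) {l : ℕ → ℝ} {u : ℕ → E n → ℝ} {U : E n → ℝ}
    (hA : ∀ k, Adm Ω (u k)) (hl0 : ∀ k, 0 < l k) (hl1 : ∀ k, l k ≤ ls)
    (hlt : Tendsto l atTop (𝓝 ls)) (heq : ∀ k, ∀ x ∈ Ω, - Δ (u k) x = l k * f (u k x))
    (hm : ∀ k, ∀ x ∈ Ω, u k x ≤ m0) (hmono : ∀ x ∈ Ω, Monotone (fun k => u k x))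
    (hlim : ∀ x ∈ Ω, Tendsto (fun k => u k x) atTop (𝓝 (U x))) {x0 : E n} (hx0 : x0 ∈ Ω) :
    ∃ s : Set (E n), IsOpen s ∧ x0 ∈ s ∧ s ⊆ Ω ∧ ContDiffOn ℝ 2 U s ∧
      ∀ x ∈ s, Tendsto (fun k => Δ (u k) x) atTop (𝓝 (Δ U x)) := by
  have hΩ := (hA 0).opn
  obtain ⟨ρ, hρ, hQ6⟩ := exists_QQ_subset hΩ hx0
  have hfm := hf.mono
  -- lower bound
  obtain ⟨α, hα, hαu⟩ : ∃ α : ℝ, 0 < α ∧ ∀ k, ∀ x ∈ QQ x0 (6 * ρ), α ≤ u k x := by
    obtain ⟨y, hy, hmin⟩ := (isCompact_QQ x0 (6 * ρ)).exists_isMinOn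
      ⟨x0, mem_QQ_self x0 (by linarith)⟩ ((hA 0).contOn.mono hQ6)
    refine ⟨u 0 y, (hA 0).pos y (hQ6 hy), fun k x hx => ?_⟩
    exact (show u 0 y ≤ u 0 x from hmin hx).trans (hmono x (hQ6 hx) (Nat.zero_le k))
  have hαm : α ≤ m0 := (hαu 0 x0 (mem_QQ_self x0 (by linarith))).trans (hm 0 x0 hx0)
  have hIcc : ∀ t ∈ Icc α m0, t ∈ Ioo (0 : ℝ) 1 := fun t ht =>
    ⟨hα.trans_le ht.1, ht.2.trans_lt hm0.2⟩
  have huI : ∀ k, ∀ x ∈ QQ x0 (6 * ρ), u k x ∈ Icc α m0 := fun k x hx =>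
    ⟨hαu k x hx, hm k x (hQ6 hx)⟩
  set F : ℝ := f m0 with hF
  set D : ℝ := d m0 with hD
  have hF0 : 0 ≤ F := by linarith [hf.one m0 hm0]
  have hD0 : 0 ≤ D := hf.dnn m0 hm0
  have hfF : ∀ t ∈ Icc α m0, |f t| ≤ F := by
    intro t ht
    rw [abs_of_nonneg (by linarith [hf.one t (hIcc t ht)])]
    exact hfm (hIcc t ht) hm0 ht.2
  have hdD : ∀ t ∈ Icc α m0, |d t| ≤ D := by
    intro t ht
    rw [abs_of_nonneg (hf.dnn t (hIcc t ht))]
    exact hf.dmono (hIcc t ht) hm0 ht.2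
  have hfL : ∀ a ∈ Icc α m0, ∀ b ∈ Icc α m0, |f a - f b| ≤ D * |a - b| := by
    intro a ha b hb
    wlog hab : a ≤ b generalizing a b with H
    · have := H b hb a ha (by linarith)
      rwa [abs_sub_comm, abs_sub_comm a b]
    have h1 := hf.conv b (hIcc b hb) a (hIcc a ha)
    have h2 := hfm (hIcc a ha) (hIcc b hb) hab
    have h3 : d b ≤ D := hf.dmono (hIcc b hb) hm0 hb.2
    rw [abs_of_nonpos (by linarith), abs_of_nonpos (by linarith)]
    nlinarith
  have hlap : ∀ k, ∀ x ∈ Ω, Δ (u k) x = - (l k * f (u k x)) := fun k x hx => by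
    linarith [heq k x hx]
  have hsub5 : ∀ x ∈ QQ x0 (5 * ρ), QQ x ρ ⊆ QQ x0 (6 * ρ) := fun x hx => by
    have := QQ_trans (b := ρ) hx
    rwa [show 5 * ρ + ρ = 6 * ρ by ring] at this
  -- Step 1 : gradient bound
  set G1 : ℝ := n * 1 / ρ + (ls * F) * ρ / 2 with hG1
  have hG10 : 0 ≤ G1 := by positivity
  have step1 : ∀ k, ∀ x ∈ QQ x0 (5 * ρ), ∀ i, |pd (u k) i x| ≤ G1 := by
    intro k x hx i
    apply grad_est hΩ (hA k).c2 hρ ((hsub5 x hx).trans hQ6)
    · intro y hy
      have h1 := huI k y (hsub5 x hx hy)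
      rw [abs_of_nonneg (by linarith [h1.1])]
      linarith [h1.2, hm0.2]
    · intro y hy
      have hy6 := hsub5 x hx hy
      rw [hlap k y (hQ6 hy6), abs_neg, abs_mul, abs_of_pos (hl0 k)]
      exact mul_le_mul (hl1 k) (hfF _ (huI k y hy6)) (abs_nonneg _) hls.le
  -- Step 2 : uniform convergence
  have hQ5 : QQ x0 (5 * ρ) ⊆ Ω := (QQ_mono (by linarith)).trans hQ6
  have hLip : ∀ k, ∀ x ∈ QQ x0 (5 * ρ), ∀ y ∈ QQ x0 (5 * ρ),
      ‖u k y - u k x‖ ≤ ((n + 1) * G1) * ‖y - x‖ := by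
    intro k x hx y hy
    apply Convex.norm_image_sub_le_of_norm_fderiv_le (𝕜 := ℝ) _ _ (convex_QQ x0 (5 * ρ)) hx hy
    · intro z hz
      exact ((hA k).c2.contDiffAt (hΩ.mem_nhds (hQ5 hz))).differentiableAt (by norm_num)
    · intro z hz
      exact norm_fderiv_le_of_pd hG10 (fun i => step1 k z hz i)
  have hUc : ContinuousOn U (QQ x0 (5 * ρ)) := by
    have h1 : LipschitzOnWith ⟨(n + 1) * G1, by positivity⟩ U (QQ x0 (5 * ρ)) := by
      apply LipschitzOnWith.of_dist_le_mul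
      intro y hy x hx
      rw [dist_eq_norm, dist_eq_norm]
      have h2 : Tendsto (fun k => ‖u k y - u k x‖) atTop (𝓝 ‖U y - U x‖) :=
        ((hlim y (hQ5 hy)).sub (hlim x (hQ5 hx))).norm
      exact le_of_tendsto h2 (Eventually.of_forall fun k => hLip k x hx y hy)
    exact h1.continuousOn
  have hunif : TendstoUniformlyOn u U atTop (QQ x0 (5 * ρ)) :=
    Monotone.tendstoUniformlyOn_of_forall_tendsto (isCompact_QQ x0 (5 * ρ))
      (fun k => (hA k).contOn.mono hQ5) (fun x hx => hmono x (hQ5 hx)) hUc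
      (fun x hx => hlim x (hQ5 hx))
  have hcau := Metric.uniformCauchySeqOn_iff.1 hunif.uniformCauchySeqOn
  have hlcau : ∀ ε > 0, ∃ N : ℕ, ∀ p ≥ N, ∀ q ≥ N, |l p - l q| < ε := by
    intro ε hε
    obtain ⟨N, hN⟩ := Metric.cauchySeq_iff.1 hlt.cauchySeq ε hε
    exact ⟨N, fun p hp q hq => by simpa [Real.dist_eq] using hN p hp q hq⟩
  have hpdsub : ∀ p q i, ∀ x ∈ Ω, pd (fun y => u p y - u q y) i x = pd (u p) i x - pd (u q) i x := by
    intro p q i x hx
    have h1 : DifferentiableAt ℝ (u p) x :=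
      ((hA p).c2.contDiffAt (hΩ.mem_nhds hx)).differentiableAt (by norm_num)
    have h2 : DifferentiableAt ℝ (u q) x :=
      ((hA q).c2.contDiffAt (hΩ.mem_nhds hx)).differentiableAt (by norm_num)
    unfold pd
    rw [fderiv_fun_sub h1 h2]
    rfl
  have hlapsub : ∀ p q, ∀ x ∈ Ω, Δ (fun y => u p y - u q y) x =
      - (l p * f (u p x)) + l q * f (u q x) := by
    intro p q x hx
    have h1 := (hA p).c2.contDiffAt (hΩ.mem_nhds hx)
    have h2 := (hA q).c2.contDiffAt (hΩ.mem_nhds hx)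
    have h3 : Δ (fun y => u p y - u q y) x = Δ (u p) x - Δ (u q) x := h1.laplacian_sub h2
    rw [h3, hlap p x hx, hlap q x hx]
    ring
  -- Step 3
  have step3 : ∀ ε > 0, ∃ N : ℕ, ∀ p ≥ N, ∀ q ≥ N, ∀ x ∈ QQ x0 (4 * ρ), ∀ i,
      |pd (u p) i x - pd (u q) i x| ≤ ε := by
    intro ε hε
    set A : ℝ := n / ρ + (F + ls * D) * ρ / 2 + 1 with hA'
    have hApos : 0 < A := by positivity
    set δ : ℝ := ε / A with hδ
    have hδ0 : 0 < δ := by positivity
    obtain ⟨N1, hN1⟩ := hcau δ hδ0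
    obtain ⟨N2, hN2⟩ := hlcau δ hδ0
    refine ⟨max N1 N2, ?_⟩
    intro p hp q hq x hx i
    have hx5 : QQ x ρ ⊆ QQ x0 (5 * ρ) := by
      have := QQ_trans (b := ρ) hx
      rwa [show 4 * ρ + ρ = 5 * ρ by ring] at this
    have hxΩ : x ∈ Ω := hQ5 (hx5 (mem_QQ_self x hρ.le))
    have key := grad_est hΩ ((hA p).c2.sub (hA q).c2) hρ (hx5.trans hQ5) (M := δ)
      (N := (F + ls * D) * δ)
      (by
        intro y hy
        have h1 := hN1 p (le_of_max_le_left hp) q (le_of_max_le_left hq) y (hx5 hy)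
        rw [Real.dist_eq] at h1
        exact h1.le)
      (by
        intro y hy
        have hy5 := hx5 hy
        have hy6 : y ∈ QQ x0 (6 * ρ) := QQ_mono (by linarith) hy5
        have h1 := hN1 p (le_of_max_le_left hp) q (le_of_max_le_left hq) y hy5
        rw [Real.dist_eq] at h1
        have h2 := hN2 p (le_of_max_le_right hp) q (le_of_max_le_right hq)
        have h3 := hlapsub p q y (hQ5 hy5)
        have h4 := hfF _ (huI p y hy6)
        have h5 := hfL _ (huI p y hy6) _ (huI q y hy6)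
        have h6 : Δ (fun y => u p y - u q y) y =
            -((l p - l q) * f (u p y) + l q * (f (u p y) - f (u q y))) := by
          rw [h3]; ring
        rw [h6, abs_neg]
        calc |(l p - l q) * f (u p y) + l q * (f (u p y) - f (u q y))|
            ≤ |(l p - l q) * f (u p y)| + |l q * (f (u p y) - f (u q y))| := abs_add_le _ _
          _ = |l p - l q| * |f (u p y)| + l q * |f (u p y) - f (u q y)| := by
              rw [abs_mul, abs_mul, abs_of_pos (hl0 q)]
          _ ≤ δ * F + ls * (D * δ) := by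
              apply add_le_add
              · exact mul_le_mul h2.le h4 (abs_nonneg _) hδ0.le
              · apply mul_le_mul (hl1 q) _ (abs_nonneg _) hls.le
                exact h5.trans (mul_le_mul_of_nonneg_left h1.le hD0)
          _ = (F + ls * D) * δ := by ring) i
    rw [hpdsub p q i x hxΩ] at key
    refine key.trans ?_
    have h7 : n * δ / ρ + (F + ls * D) * δ * ρ / 2 = (A - 1) * δ := by
      rw [hA']; field_simp; ring
    rw [h7]
    have h8 : A * δ = ε := by rw [hδ]; field_simp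
    nlinarith
  have hQ4 : QQ x0 (4 * ρ) ⊆ Ω := (QQ_mono (by linarith)).trans hQ6
  -- derivative of the Laplacian
  have hfc1 : ContDiffOn ℝ 1 f (Ioo 0 1) := by
    have h1 : ∀ t ∈ Ioo (0 : ℝ) 1, deriv f t = d t := fun t ht => (hf.hd t ht).deriv
    rw [show (1 : WithTop ℕ∞) = 0 + 1 from rfl, contDiffOn_succ_iff_deriv_of_isOpen isOpen_Ioo]
    refine ⟨fun t ht => (hf.hd t ht).differentiableAt.differentiableWithinAt, by simp, ?_⟩
    exact contDiffOn_zero.2 (hf.dcont.congr h1)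
  have hfu : ∀ k, ContDiffOn ℝ 1 (fun x => f (u k x)) Ω := fun k =>
    hfc1.comp ((hA k).c2.of_le (by norm_num)) (fun x hx => ⟨(hA k).pos x hx, (hA k).lt x hx⟩)
  have hlapc1 : ∀ p q, ContDiffOn ℝ 1 (Δ (fun y => u p y - u q y)) Ω := by
    intro p q
    have h1 : ContDiffOn ℝ 1 (fun x => - (l p * f (u p x)) + l q * f (u q x)) Ω :=
      (contDiffOn_const.mul (hfu p)).neg.add (contDiffOn_const.mul (hfu q))
    exact h1.congr (fun x hx => hlapsub p q x hx)
  have hpdlap : ∀ p q j, ∀ x ∈ Ω, pd (Δ (fun y => u p y - u q y)) j x =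
      - (l p * (d (u p x) * pd (u p) j x)) + l q * (d (u q x) * pd (u q) j x) := by
    intro p q j x hx
    have h1 : Δ (fun y => u p y - u q y) =ᶠ[𝓝 x]
        fun x => - (l p * f (u p x)) + l q * f (u q x) := by
      filter_upwards [hΩ.mem_nhds hx] with y hy using hlapsub p q y hy
    have h2 : ∀ k, HasFDerivAt (fun x => f (u k x)) (d (u k x) • fderiv ℝ (u k) x) x := by
      intro k
      have h3 : DifferentiableAt ℝ (u k) x :=
        ((hA k).c2.contDiffAt (hΩ.mem_nhds hx)).differentiableAt (by norm_num)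
      exact (hf.hd _ ⟨(hA k).pos x hx, (hA k).lt x hx⟩).comp_hasFDerivAt x h3.hasFDerivAt
    have h4 := ((h2 p).const_mul (l p)).neg.add ((h2 q).const_mul (l q))
    unfold pd
    rw [h1.fderiv_eq]
    have h5 : fderiv ℝ (fun x => - (l p * f (u p x)) + l q * f (u q x)) x = _ := h4.fderiv
    rw [h5]
    simp
  -- uniform continuity of `d`
  have hdu : ∀ ε > 0, ∃ δ > 0, ∀ a ∈ Icc α m0, ∀ b ∈ Icc α m0, |a - b| < δ → |d a - d b| < ε := by
    intro ε hε
    have h1 : UniformContinuousOn d (Icc α m0) :=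
      isCompact_Icc.uniformContinuousOn_of_continuous (hf.dcont.mono hIcc)
    obtain ⟨δ, hδ, h2⟩ := Metric.uniformContinuousOn_iff.1 h1 ε hε
    exact ⟨δ, hδ, fun a ha b hb hab => by simpa [Real.dist_eq] using h2 a ha b hb (by simpa [Real.dist_eq] using hab)⟩
  -- Step 4
  have step4 : ∀ ε > 0, ∃ N : ℕ, ∀ p ≥ N, ∀ q ≥ N, ∀ x ∈ QQ x0 (2 * ρ), ∀ i j,
      |pd (pd (u p) i) j x - pd (pd (u q) i) j x| ≤ ε := by
    intro ε hε
    set A : ℝ := n / ρ + (D * G1 + ls * G1 + ls * D) * ρ / 2 + 1 with hA'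
    have hApos : 0 < A := by positivity
    set δ : ℝ := ε / A with hδ
    have hδ0 : 0 < δ := by positivity
    obtain ⟨δ', hδ', hdδ⟩ := hdu δ hδ0
    obtain ⟨N1, hN1⟩ := hcau δ' hδ'
    obtain ⟨N2, hN2⟩ := hlcau δ hδ0
    obtain ⟨N3, hN3⟩ := step3 δ hδ0
    refine ⟨max N1 (max N2 N3), ?_⟩
    intro p hp q hq x hx i j
    have hp1 : N1 ≤ p := le_of_max_le_left hp
    have hp2 : N2 ≤ p := le_of_max_le_left (le_of_max_le_right hp)
    have hp3 : N3 ≤ p := le_of_max_le_right (le_of_max_le_right hp)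
    have hq1 : N1 ≤ q := le_of_max_le_left hq
    have hq2 : N2 ≤ q := le_of_max_le_left (le_of_max_le_right hq)
    have hq3 : N3 ≤ q := le_of_max_le_right (le_of_max_le_right hq)
    have hx4 : QQ x (2 * ρ) ⊆ QQ x0 (4 * ρ) := by
      have := QQ_trans (b := 2 * ρ) hx
      rwa [show 2 * ρ + 2 * ρ = 4 * ρ by ring] at this
    have hxΩ : x ∈ Ω := hQ4 (hx4 (mem_QQ_self x (by linarith)))
    have key := hess_est hΩ ((hA p).c2.sub (hA q).c2) hρ (hx4.trans hQ4) (M := δ)
      (N := (D * G1 + ls * G1 + ls * D) * δ) j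
      (by
        intro y hy
        rw [hpdsub p q j y (hQ4 (hx4 hy))]
        exact hN3 p hp3 q hq3 y (hx4 hy) j)
      (hlapc1 p q)
      (by
        intro y hy
        have hy4 := hx4 hy
        have hy5 : y ∈ QQ x0 (5 * ρ) := QQ_mono (by linarith) hy4
        have hy6 : y ∈ QQ x0 (6 * ρ) := QQ_mono (by linarith) hy4
        have h1 := hN1 p hp1 q hq1 y hy5
        rw [Real.dist_eq] at h1
        have h2 := hN2 p hp2 q hq2
        have h3 := hN3 p hp3 q hq3 y hy4 j
        have h4 := hdδ _ (huI p y hy6) _ (huI q y hy6) h1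
        have h5 := hdD _ (huI p y hy6)
        have h5' := hdD _ (huI q y hy6)
        have h6 := step1 p y hy5 j
        rw [hpdlap p q j y (hQ4 hy4)]
        have h7 : - (l p * (d (u p y) * pd (u p) j y)) + l q * (d (u q y) * pd (u q) j y) =
            -((l p - l q) * (d (u p y) * pd (u p) j y) + l q * ((d (u p y) - d (u q y)) * pd (u p) j y)
              + l q * (d (u q y) * (pd (u p) j y - pd (u q) j y))) := by ring
        rw [h7, abs_neg]
        calc |(l p - l q) * (d (u p y) * pd (u p) j y) + l q * ((d (u p y) - d (u q y)) * pd (u p) j y)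
              + l q * (d (u q y) * (pd (u p) j y - pd (u q) j y))|
            ≤ |(l p - l q) * (d (u p y) * pd (u p) j y)| +
              |l q * ((d (u p y) - d (u q y)) * pd (u p) j y)| +
              |l q * (d (u q y) * (pd (u p) j y - pd (u q) j y))| := abs_add_three _ _ _
          _ = |l p - l q| * (|d (u p y)| * |pd (u p) j y|) +
              l q * (|d (u p y) - d (u q y)| * |pd (u p) j y|) +
              l q * (|d (u q y)| * |pd (u p) j y - pd (u q) j y|) := by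
              simp only [abs_mul, abs_of_pos (hl0 q)]
          _ ≤ δ * (D * G1) + ls * (δ * G1) + ls * (D * δ) := by
              apply add_le_add
              · apply add_le_add
                · exact mul_le_mul h2.le (mul_le_mul h5 h6 (abs_nonneg _) hD0) (by positivity) hδ0.le
                · exact mul_le_mul (hl1 q) (mul_le_mul h4.le h6 (abs_nonneg _) hδ0.le)
                    (by positivity) hls.le
              · exact mul_le_mul (hl1 q) (mul_le_mul h5' h3 (abs_nonneg _) hD0)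
                  (by positivity) hls.le
          _ = (D * G1 + ls * G1 + ls * D) * δ := by ring) i
    have h9 : pd (pd (fun y => u p y - u q y) i) j x = pd (pd (u p) i) j x - pd (pd (u q) i) j x := by
      have e1 : pd (fun y => u p y - u q y) i =ᶠ[𝓝 x] fun y => pd (u p) i y - pd (u q) i y := by
        filter_upwards [hΩ.mem_nhds hxΩ] with y hy using hpdsub p q i y hy
      have e2 : ∀ k, DifferentiableAt ℝ (pd (u k) i) x := fun k =>
        ((contDiffOn_one_pd hΩ (hA k).c2 i).contDiffAt (hΩ.mem_nhds hxΩ)).differentiableAt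
          (by norm_num)
      show fderiv ℝ (pd (fun y => u p y - u q y) i) x (bv j) =
        fderiv ℝ (pd (u p) i) x (bv j) - fderiv ℝ (pd (u q) i) x (bv j)
      rw [e1.fderiv_eq, fderiv_fun_sub (e2 p) (e2 q)]
      rfl
    rw [h9] at key
    refine key.trans ?_
    have h7 : n * δ / ρ + (D * G1 + ls * G1 + ls * D) * δ * ρ / 2 = (A - 1) * δ := by
      rw [hA']; field_simp; ring
    rw [h7]
    have h8 : A * δ = ε := by rw [hδ]; field_simp
    nlinarith
  -- conclusion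
  have hballQ : Metric.ball x0 ρ ⊆ QQ x0 (2 * ρ) :=
    (ball_subset_QQ x0 ρ).trans (QQ_mono (by linarith))
  have hballΩ : Metric.ball x0 ρ ⊆ Ω := hballQ.trans ((QQ_mono (by linarith)).trans hQ6)
  have hres := c2_limit (s := Metric.ball x0 ρ) Metric.isOpen_ball (v := u) (V := U)
    (fun k => (hA k).c2.mono hballΩ) (fun x hx => hlim x (hballΩ hx))
    (by
      intro i
      rw [Metric.uniformCauchySeqOn_iff]
      intro ε hε
      obtain ⟨N, hN⟩ := step3 (ε / 2) (by linarith)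
      refine ⟨N, fun p hp q hq x hx => ?_⟩
      have := hN p hp q hq x (QQ_mono (by linarith) (hballQ hx)) i
      rw [Real.dist_eq]
      linarith)
    (by
      intro i j
      rw [Metric.uniformCauchySeqOn_iff]
      intro ε hε
      obtain ⟨N, hN⟩ := step4 (ε / 2) (by linarith)
      refine ⟨N, fun p hp q hq x hx => ?_⟩
      have := hN p hp q hq x (hballQ hx) i j
      rw [Real.dist_eq]
      linarith)
  exact ⟨Metric.ball x0 ρ, Metric.isOpen_ball, Metric.mem_ball_self hρ, hballΩ, hres.1, hres.2⟩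

end Pool.Agent.H947R3
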