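import Pool.Agent.H947R3.Basic

set_option autoImplicit false

open MeasureTheory Set Filter Topology Laplacian InnerProductSpace

namespace Pool.Agent.H947R3

variable {n : ℕ}

/-- closed cube -/
def QQ (x : E n) (ρ : ℝ) : Set (E n) := {y | ∀ j, |y j - x j| ≤ ρ}

lemma isCompact_QQ (x : E n) (ρ : ℝ) : IsCompact (QQ x ρ) := by
  apply Metric.isCompact_of_isClosed_isBounded
  · have : QQ x ρ = ⋂ j, {y : E n | |y j - x j| ≤ ρ} := by
      ext y; simp [QQ]
    rw [this]
    apply isClosed_iInter
    intro j
    exact isClosed_le (by fun_prop) continuous_const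
  · rw [Metric.isBounded_iff_subset_closedBall x]
    refine ⟨Real.sqrt (n * ρ ^ 2), ?_⟩
    intro y hy
    rw [Metric.mem_closedBall, EuclideanSpace.dist_eq]
    apply Real.sqrt_le_sqrt
    calc ∑ i, dist (y i) (x i) ^ 2 ≤ ∑ i : Fin n, ρ ^ 2 := by
          apply Finset.sum_le_sum
          intro i _
          rw [Real.dist_eq]
          have := hy i
          gcongr
      _ = n * ρ ^ 2 := by simp

lemma convex_QQ (x : E n) (ρ : ℝ) : Convex ℝ (QQ x ρ) := by
  intro y hy z hz a b ha hb hab j
  have h1 := hy j
  have h2 := hz j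
  have h3 : (a • y + b • z) j - x j = a * (y j - x j) + b * (z j - x j) := by
    simp only [PiLp.add_apply, PiLp.smul_apply, smul_eq_mul]
    have : x j = (a + b) * x j := by rw [hab, one_mul]
    linear_combination (-1 : ℝ) * this
  rw [h3]
  calc |a * (y j - x j) + b * (z j - x j)| ≤ |a * (y j - x j)| + |b * (z j - x j)| := abs_add_le _ _
    _ = a * |y j - x j| + b * |z j - x j| := by rw [abs_mul, abs_mul, abs_of_nonneg ha, abs_of_nonneg hb]
    _ ≤ a * ρ + b * ρ := by gcongr
    _ = ρ := by rw [← add_mul, hab, one_mul]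

/-- reflection in the `i`-th coordinate about `x0` -/
noncomputable def RR (x0 : E n) (i : Fin n) (x : E n) : E n := x - (2 * (x i - x0 i)) • bv i

lemma bv_apply (i j : Fin n) : (bv i : E n) j = if j = i then 1 else 0 := by
  rw [bv_eq]; simp

lemma RR_apply (x0 : E n) (i : Fin n) (x : E n) (j : Fin n) :
    RR x0 i x j = if j = i then 2 * x0 i - x i else x j := by
  unfold RR
  simp only [PiLp.sub_apply, PiLp.smul_apply, smul_eq_mul, bv_apply]
  split_ifs with h
  · subst h; ring
  · ring

lemma RR_mem {x0 x : E n} {i : Fin n} {ρ : ℝ} (h : x ∈ QQ x0 ρ) : RR x0 i x ∈ QQ x0 ρ := by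
  intro j
  rw [RR_apply]
  split_ifs with hj
  · subst hj
    have := h j
    rw [abs_le] at this ⊢
    constructor <;> linarith [this.1, this.2]
  · exact h j

lemma continuous_RR (x0 : E n) (i : Fin n) : Continuous (RR x0 i) := by
  unfold RR; fun_prop

lemma contDiff_RR (x0 : E n) (i : Fin n) {k : WithTop ℕ∞} : ContDiff ℝ k (RR x0 i) := by
  have h1 : ContDiff ℝ k (fun x : E n => 2 * (x i - x0 i)) := by
    apply ContDiff.mul contDiff_const
    apply ContDiff.sub _ contDiff_const
    exact (EuclideanSpace.proj (𝕜 := ℝ) i).contDiff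
  exact contDiff_id.sub (h1.smul contDiff_const)

/-- The Laplacian commutes with a coordinate reflection. -/
lemma lap_comp_RR {w : E n → ℝ} {x0 x : E n} {i : Fin n} (h : ContDiffAt ℝ 2 w (RR x0 i x)) :
    Δ (fun y => w (RR x0 i y)) x = Δ w (RR x0 i x) := by
  have hc : ContDiffAt ℝ 2 (fun y => w (RR x0 i y)) x := h.comp x (contDiff_RR x0 i).contDiffAt
  rw [lap_eq hc, lap_eq h]
  refine Finset.sum_congr rfl fun k _ => ?_
  rw [← deriv2_line hc k, ← deriv2_line h k]
  by_cases hk : k = i
  · subst hk
    have h1 : (fun t : ℝ => w (RR x0 k (x + t • bv k))) =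
        fun t : ℝ => (fun s : ℝ => w (RR x0 k x + s • bv k)) (-t) := by
      funext t
      simp only []
      congr 1
      ext j
      simp only [RR_apply, PiLp.add_apply, PiLp.smul_apply, smul_eq_mul, bv_apply]
      split_ifs with hj
      · simp; ring
      · ring
    rw [h1]
    set g : ℝ → ℝ := fun s => w (RR x0 k x + s • bv k)
    have h2 : deriv (fun t => g (-t)) = fun t => - deriv g (-t) := by
      funext t; exact deriv_comp_neg g t
    rw [h2, deriv.fun_neg, deriv_comp_neg]
    simp
  · have h1 : (fun t : ℝ => w (RR x0 i (x + t • bv k))) =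
        fun t : ℝ => w (RR x0 i x + t • bv k) := by
      funext t
      congr 1
      ext j
      simp only [RR_apply, PiLp.add_apply, PiLp.smul_apply, smul_eq_mul, bv_apply]
      by_cases hj : j = i
      · subst hj
        simp [Ne.symm hk]
      · simp [hj]
    rw [h1]

/-- Laplacian of the barrier. -/
lemma lap_barrier (x0 x : E n) (i : Fin n) (α β δ : ℝ) :
    Δ (fun y : E n => α * ∑ j, (y j - x0 j) ^ 2 + β * ((y i - x0 i) * (δ - (y i - x0 i)))) x =
      2 * n * α - 2 * β := by
  have hc : ContDiff ℝ 2 (fun y : E n => α * ∑ j, (y j - x0 j) ^ 2 +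
      β * ((y i - x0 i) * (δ - (y i - x0 i)))) := by
    have hp : ∀ j, ContDiff ℝ 2 (fun y : E n => y j) := fun j =>
      (EuclideanSpace.proj (𝕜 := ℝ) j).contDiff
    apply ContDiff.add
    · apply contDiff_const.mul
      apply ContDiff.sum
      intro j _
      exact ((hp j).sub contDiff_const).pow 2
    · apply contDiff_const.mul
      exact ((hp i).sub contDiff_const).mul (contDiff_const.sub ((hp i).sub contDiff_const))
  rw [lap_eq hc.contDiffAt]
  have key : ∀ k : Fin n, pd (pd (fun y : E n => α * ∑ j, (y j - x0 j) ^ 2 +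
      β * ((y i - x0 i) * (δ - (y i - x0 i)))) k) k x = 2 * α - if k = i then 2 * β else 0 := by
    intro k
    rw [← deriv2_line hc.contDiffAt k]
    by_cases hk : k = i
    · subst hk
      have h1 : (fun t : ℝ => α * ∑ j, ((x + t • bv k) j - x0 j) ^ 2 +
          β * (((x + t • bv k) k - x0 k) * (δ - ((x + t • bv k) k - x0 k)))) =
          fun t : ℝ => (α * ∑ j, (x j - x0 j) ^ 2 + β * ((x k - x0 k) * (δ - (x k - x0 k)))) +
            (2 * α * (x k - x0 k) + β * (δ - 2 * (x k - x0 k))) * t + (α - β) * t ^ 2 := by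
        funext t
        have h2 : ∑ j, ((x + t • bv k) j - x0 j) ^ 2 =
            ∑ j, (x j - x0 j) ^ 2 + (2 * (x k - x0 k) * t + t ^ 2) := by
          have h3 : ∀ j, ((x + t • bv k) j - x0 j) ^ 2 =
              (x j - x0 j) ^ 2 + if j = k then (2 * (x k - x0 k) * t + t ^ 2) else 0 := by
            intro j
            simp only [PiLp.add_apply, PiLp.smul_apply, smul_eq_mul, bv_apply]
            split_ifs with hj
            · subst hj; ring
            · ring
          rw [Finset.sum_congr rfl fun j _ => h3 j, Finset.sum_add_distrib]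
          simp
        rw [h2]
        simp only [PiLp.add_apply, PiLp.smul_apply, smul_eq_mul, bv_apply, if_true]
        ring
      rw [h1]
      generalize (α * ∑ j, (x j - x0 j) ^ 2 + β * ((x k - x0 k) * (δ - (x k - x0 k)))) = c0
      generalize (2 * α * (x k - x0 k) + β * (δ - 2 * (x k - x0 k))) = c1
      have h4 : deriv (fun t : ℝ => c0 + c1 * t + (α - β) * t ^ 2) =
          fun t => c1 + 2 * (α - β) * t := by
        funext t
        have : HasDerivAt (fun t : ℝ => c0 + c1 * t + (α - β) * t ^ 2)
            (0 + c1 * 1 + (α - β) * (2 * t ^ 1 * 1)) t := by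
          have e1 := (hasDerivAt_const t c0).add ((hasDerivAt_id t).const_mul c1)
          have e2 := ((hasDerivAt_id t).pow 2).const_mul (α - β)
          exact (e1.add e2)
        rw [this.deriv]; ring
      rw [h4]
      have h5 : HasDerivAt (fun t : ℝ => c1 + 2 * (α - β) * t) (2 * (α - β) * 1) 0 :=
        ((hasDerivAt_id (0 : ℝ)).const_mul (2 * (α - β))).const_add c1
      rw [h5.deriv]
      simp; ring
    · have h1 : (fun t : ℝ => α * ∑ j, ((x + t • bv k) j - x0 j) ^ 2 +
          β * (((x + t • bv k) i - x0 i) * (δ - ((x + t • bv k) i - x0 i)))) =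
          fun t : ℝ => (α * ∑ j, (x j - x0 j) ^ 2 + β * ((x i - x0 i) * (δ - (x i - x0 i)))) +
            (2 * α * (x k - x0 k)) * t + α * t ^ 2 := by
        funext t
        have h2 : ∑ j, ((x + t • bv k) j - x0 j) ^ 2 =
            ∑ j, (x j - x0 j) ^ 2 + (2 * (x k - x0 k) * t + t ^ 2) := by
          have h3 : ∀ j, ((x + t • bv k) j - x0 j) ^ 2 =
              (x j - x0 j) ^ 2 + if j = k then (2 * (x k - x0 k) * t + t ^ 2) else 0 := by
            intro j
            simp only [PiLp.add_apply, PiLp.smul_apply, smul_eq_mul, bv_apply]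
            split_ifs with hj
            · subst hj; ring
            · ring
          rw [Finset.sum_congr rfl fun j _ => h3 j, Finset.sum_add_distrib]
          simp
        rw [h2]
        simp only [PiLp.add_apply, PiLp.smul_apply, smul_eq_mul, bv_apply, Ne.symm hk, if_false]
        ring
      rw [h1]
      generalize (α * ∑ j, (x j - x0 j) ^ 2 + β * ((x i - x0 i) * (δ - (x i - x0 i)))) = c0
      generalize (2 * α * (x k - x0 k)) = c1
      have h4 : deriv (fun t : ℝ => c0 + c1 * t + α * t ^ 2) =
          fun t => c1 + 2 * α * t := by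
        funext t
        have : HasDerivAt (fun t : ℝ => c0 + c1 * t + α * t ^ 2)
            (0 + c1 * 1 + α * (2 * t ^ 1 * 1)) t := by
          have e1 := (hasDerivAt_const t c0).add ((hasDerivAt_id t).const_mul c1)
          have e2 := ((hasDerivAt_id t).pow 2).const_mul α
          exact (e1.add e2)
        rw [this.deriv]; ring
      rw [h4]
      have h5 : HasDerivAt (fun t : ℝ => c1 + 2 * α * t) (2 * α * 1) 0 :=
        ((hasDerivAt_id (0 : ℝ)).const_mul (2 * α)).const_add c1
      rw [h5.deriv]
      simp [hk]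
  rw [Finset.sum_congr rfl fun k _ => key k, Finset.sum_sub_distrib]
  simp
  ring

end Pool.Agent.H947R3
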