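import Pool.Agent.H947R3.Grad

set_option autoImplicit false

open MeasureTheory Set Filter Topology Laplacian InnerProductSpace

namespace Pool.Agent.H947R3

variable {n : ℕ}

lemma mem_QQ_self (x : E n) {ρ : ℝ} (hρ : 0 ≤ ρ) : x ∈ QQ x ρ := by
  intro j; simpa using hρ

lemma RR_line (x0 : E n) (i : Fin n) (s : ℝ) : RR x0 i (x0 + s • bv i) = x0 + (-s) • bv i := by
  ext j
  simp only [RR_apply, PiLp.add_apply, PiLp.smul_apply, smul_eq_mul, bv_apply]
  split_ifs with h
  · subst h; simp; ring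
  · simp

lemma grad_est_one {U : Set (E n)} (hU : IsOpen U) {w : E n → ℝ} (hw : ContDiffOn ℝ 2 w U)
    {x0 : E n} {ρ : ℝ} (hρ : 0 < ρ) (hQ : QQ x0 ρ ⊆ U) {M N : ℝ}
    (hM : ∀ x ∈ QQ x0 ρ, |w x| ≤ M) (hN : ∀ x ∈ QQ x0 ρ, |Δ w x| ≤ N) (i : Fin n) :
    pd w i x0 ≤ n * M / ρ + N * ρ / 2 := by
  have hM0 : 0 ≤ M := (abs_nonneg _).trans (hM x0 (mem_QQ_self x0 hρ.le))
  have hN0 : 0 ≤ N := (abs_nonneg _).trans (hN x0 (mem_QQ_self x0 hρ.le))
  have hwat : ∀ x ∈ QQ x0 ρ, ContDiffAt ℝ 2 w x := fun x hx => hw.contDiffAt (hU.mem_nhds (hQ hx))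
  suffices hε : ∀ ε : ℝ, 0 < ε → pd w i x0 ≤ n * M / ρ + (N + ε) * ρ / 2 by
    apply le_of_forall_pos_le_add
    intro δ hδ
    have := hε (2 * δ / ρ) (by positivity)
    have h2 : n * M / ρ + (N + 2 * δ / ρ) * ρ / 2 = n * M / ρ + N * ρ / 2 + δ := by
      field_simp
      ring
    linarith
  intro ε hε
  set α : ℝ := M / ρ ^ 2 with hα
  set β : ℝ := n * M / ρ ^ 2 + (N + ε) / 2 with hβ
  have hα0 : 0 ≤ α := by positivity
  have hβ0 : 0 ≤ β := by positivity
  set ψ : E n → ℝ := fun y => α * ∑ j, (y j - x0 j) ^ 2 + β * ((y i - x0 i) * (ρ - (y i - x0 i)))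
    with hψ
  have hψc : ContDiff ℝ 2 ψ := by
    have hp : ∀ j, ContDiff ℝ 2 (fun y : E n => y j) := fun j =>
      (EuclideanSpace.proj (𝕜 := ℝ) j).contDiff
    apply ContDiff.add
    · apply contDiff_const.mul
      apply ContDiff.sum
      intro j _
      exact ((hp j).sub contDiff_const).pow 2
    · apply contDiff_const.mul
      exact ((hp i).sub contDiff_const).mul (contDiff_const.sub ((hp i).sub contDiff_const))
  set F : E n → ℝ := fun y => (1 / 2) * (w y - w (RR x0 i y)) - ψ y with hF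
  set H : Set (E n) := QQ x0 ρ ∩ {y | 0 ≤ y i - x0 i} with hH
  have hHc : IsCompact H := by
    apply (isCompact_QQ x0 ρ).inter_right
    exact isClosed_le continuous_const (by fun_prop)
  have hFc : ContinuousOn F H := by
    have h1 : ContinuousOn w (QQ x0 ρ) := hw.continuousOn.mono hQ
    have h2 : ContinuousOn (fun y => w (RR x0 i y)) (QQ x0 ρ) :=
      h1.comp (continuous_RR x0 i).continuousOn (fun y hy => RR_mem hy)
    exact ((continuousOn_const.mul (h1.sub h2)).sub hψc.continuous.continuousOn).mono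
      inter_subset_left
  -- the barrier inequality
  have hbar : ∀ y ∈ H, F y ≤ 0 := by
    intro y1 hy1
    by_contra hcon
    push Not at hcon
    obtain ⟨z, hz, hmax⟩ := hHc.exists_isMaxOn ⟨y1, hy1⟩ hFc
    have hFz : 0 < F z := hcon.trans_le (hmax hy1)
    have hzQ : z ∈ QQ x0 ρ := hz.1
    have hzi : 0 ≤ z i - x0 i := hz.2
    have hziρ : z i - x0 i ≤ ρ := (le_abs_self _).trans (hzQ i)
    have hβt : 0 ≤ β * ((z i - x0 i) * (ρ - (z i - x0 i))) :=
      mul_nonneg hβ0 (mul_nonneg hzi (by linarith))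
    have hsum0 : 0 ≤ ∑ j, (z j - x0 j) ^ 2 := Finset.sum_nonneg fun j _ => sq_nonneg _
    have hzi' : 0 < z i - x0 i := by
      rcases hzi.lt_or_eq with h | h
      · exact h
      · exfalso
        have h1 : RR x0 i z = z := by
          unfold RR; rw [← h]; simp
        have h2 : F z ≤ 0 := by
          simp only [hF, h1, hψ]
          have : 0 ≤ α * ∑ j, (z j - x0 j) ^ 2 := mul_nonneg hα0 hsum0
          linarith
        linarith
    have hzj : ∀ j, |z j - x0 j| < ρ := by
      intro j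
      rcases (hzQ j).lt_or_eq with h | h
      · exact h
      · exfalso
        have h1 : ρ ^ 2 ≤ ∑ j, (z j - x0 j) ^ 2 := by
          calc ρ ^ 2 = (z j - x0 j) ^ 2 := by rw [← h, sq_abs]
            _ ≤ _ := Finset.single_le_sum (f := fun j => (z j - x0 j) ^ 2)
                (fun j _ => sq_nonneg _) (Finset.mem_univ j)
        have h2 : M ≤ α * ∑ j, (z j - x0 j) ^ 2 := by
          calc M = α * ρ ^ 2 := by rw [hα]; field_simp
            _ ≤ _ := mul_le_mul_of_nonneg_left h1 hα0
        have h3 := hM z hzQ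
        have h4 := hM _ (RR_mem (i := i) hzQ)
        rw [abs_le] at h3 h4
        have h5 : F z ≤ 0 := by
          simp only [hF, hψ]
          linarith [h3.2, h4.1]
        linarith
    have hopen : IsOpen {y : E n | (∀ j, |y j - x0 j| < ρ) ∧ 0 < y i - x0 i} := by
      have : {y : E n | (∀ j, |y j - x0 j| < ρ) ∧ 0 < y i - x0 i} =
          (⋂ j, {y : E n | |y j - x0 j| < ρ}) ∩ {y | 0 < y i - x0 i} := by
        ext y; simp
      rw [this]
      apply IsOpen.inter
      · apply isOpen_iInter_of_finite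
        intro j
        exact isOpen_lt (by fun_prop) continuous_const
      · exact isOpen_lt continuous_const (by fun_prop)
    have hloc : IsLocalMin (ψ - (1 / 2 : ℝ) • (w - fun y => w (RR x0 i y))) z := by
      filter_upwards [hopen.mem_nhds ⟨hzj, hzi'⟩] with y hy
      have h1 : F y ≤ F z := hmax ⟨fun j => (hy.1 j).le, hy.2.le⟩
      simp only [hF] at h1
      simp only [Pi.sub_apply, Pi.smul_apply, smul_eq_mul]
      linarith
    have hwR : ContDiffAt ℝ 2 (fun y => w (RR x0 i y)) z :=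
      (hwat _ (RR_mem hzQ)).comp z (contDiff_RR x0 i).contDiffAt
    have hdiff : ContDiffAt ℝ 2 (w - fun y => w (RR x0 i y)) z := (hwat z hzQ).sub hwR
    have hcs : ContDiffAt ℝ 2 ((1 / 2 : ℝ) • (w - fun y => w (RR x0 i y))) z :=
      contDiffAt_const.smul hdiff
    have hlap : 0 ≤ Δ (ψ - (1 / 2 : ℝ) • (w - fun y => w (RR x0 i y))) z :=
      lap_nonneg_of_isLocalMin (hψc.contDiffAt.sub hcs) hloc
    rw [hψc.contDiffAt.laplacian_sub hcs, laplacian_smul _ hdiff, (hwat z hzQ).laplacian_sub hwR,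
      lap_comp_RR (hwat _ (RR_mem hzQ)), smul_eq_mul] at hlap
    have hb : Δ ψ z = 2 * n * α - 2 * β := lap_barrier x0 z i α β ρ
    rw [hb] at hlap
    have h3 := hN z hzQ
    have h4 := hN _ (RR_mem (i := i) hzQ)
    rw [abs_le] at h3 h4
    have h5 : 2 * n * α - 2 * β = - (N + ε) := by
      rw [hα, hβ]; field_simp; ring
    rw [h5] at hlap
    linarith [h3.1, h4.2]
  -- take the derivative at `x0`
  have hwd : DifferentiableAt ℝ w x0 :=
    (hwat x0 (mem_QQ_self x0 hρ.le)).differentiableAt (by norm_num)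
  have hg : HasDerivAt (fun s : ℝ => w (x0 + s • bv i)) (pd w i x0) 0 := by
    have hline : HasDerivAt (fun t : ℝ => x0 + t • (bv i : E n)) (bv i) 0 := by
      simpa using ((hasDerivAt_id (0 : ℝ)).smul_const (bv i : E n)).const_add x0
    have h3 : HasFDerivAt w (fderiv ℝ w x0) (x0 + (0 : ℝ) • bv i) := by
      simpa using hwd.hasFDerivAt
    exact h3.comp_hasDerivAt 0 hline
  have hg2 : HasDerivAt (fun s : ℝ => w (x0 + (-s) • bv i)) (- pd w i x0) 0 := by
    have h1 : HasDerivAt (fun s : ℝ => w (x0 + s • bv i)) (pd w i x0) (-0) := by simpa using hg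
    have := h1.scomp (0 : ℝ) (hasDerivAt_neg (0 : ℝ))
    simpa [Function.comp_def] using this
  have hlim := (hg.sub hg2).tendsto_slope_zero_right
  have hbd : Tendsto (fun s : ℝ => 2 * (α * s + β * (ρ - s))) (𝓝[>] 0) (𝓝 (2 * (α * 0 + β * (ρ - 0)))) := by
    have : Continuous (fun s : ℝ => 2 * (α * s + β * (ρ - s))) := by fun_prop
    exact (this.tendsto 0).mono_left nhdsWithin_le_nhds
  have hle : pd w i x0 - - pd w i x0 ≤ 2 * (α * 0 + β * (ρ - 0)) := by
    apply le_of_tendsto_of_tendsto hlim hbd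
    filter_upwards [Ioo_mem_nhdsGT hρ] with s hs
    have hmem : x0 + s • bv i ∈ H := by
      constructor
      · intro j
        simp only [PiLp.add_apply, PiLp.smul_apply, smul_eq_mul, bv_apply]
        split_ifs
        · simp only [mul_one, add_sub_cancel_left]
          rw [abs_of_pos hs.1]; exact hs.2.le
        · simp [hρ.le]
      · simp only [mem_ofPred_eq, PiLp.add_apply, PiLp.smul_apply, smul_eq_mul, bv_apply, if_true,
          mul_one, add_sub_cancel_left]
        exact hs.1.le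
    have h1 := hbar _ hmem
    have h2 : ∑ j, ((x0 + s • bv i) j - x0 j) ^ 2 = s ^ 2 := by
      have h3 : ∀ j, ((x0 + s • bv i) j - x0 j) ^ 2 = if j = i then s ^ 2 else 0 := by
        intro j
        simp only [PiLp.add_apply, PiLp.smul_apply, smul_eq_mul, bv_apply]
        split_ifs <;> simp
      rw [Finset.sum_congr rfl fun j _ => h3 j]
      simp
    have h4 : (x0 + s • bv i) i - x0 i = s := by
      simp only [PiLp.add_apply, PiLp.smul_apply, smul_eq_mul, bv_apply, if_true, mul_one,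
        add_sub_cancel_left]
    simp only [hF, hψ, RR_line] at h1
    rw [h2, h4] at h1
    simp only [zero_add, neg_zero, zero_smul, add_zero, sub_self, sub_zero, smul_eq_mul, Pi.sub_apply]
    rw [inv_mul_le_iff₀ hs.1]
    nlinarith
  have hfin : β * ρ = n * M / ρ + (N + ε) * ρ / 2 := by
    rw [hβ]; field_simp
  nlinarith

/-- Interior gradient estimate. -/
theorem grad_est {U : Set (E n)} (hU : IsOpen U) {w : E n → ℝ} (hw : ContDiffOn ℝ 2 w U)
    {x0 : E n} {ρ : ℝ} (hρ : 0 < ρ) (hQ : QQ x0 ρ ⊆ U) {M N : ℝ}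
    (hM : ∀ x ∈ QQ x0 ρ, |w x| ≤ M) (hN : ∀ x ∈ QQ x0 ρ, |Δ w x| ≤ N) (i : Fin n) :
    |pd w i x0| ≤ n * M / ρ + N * ρ / 2 := by
  rw [abs_le]
  constructor
  · have h1 := grad_est_one hU hw.neg hρ hQ (M := M) (N := N) (by simpa using hM)
      (by
        intro x hx
        have h2 : Δ (fun y => - w y) x = - Δ w x := by
          have := laplacian_neg (f := w)
          exact congrFun this x
        rw [h2, abs_neg]
        exact hN x hx) i
    have h2 : pd (fun y => - w y) i x0 = - pd w i x0 := by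
      unfold pd
      rw [fderiv_fun_neg]
      simp
    rw [h2] at h1
    linarith
  · exact grad_est_one hU hw hρ hQ hM hN i

end Pool.Agent.H947R3
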