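import Pool.Agent.H947R3.Int

set_option autoImplicit false

open MeasureTheory Set Filter Topology Laplacian InnerProductSpace

namespace Pool.Agent.H947R3

/-- A `C¹` step profile: its derivative. -/
noncomputable def bS (r : ℝ) : ℝ := max 0 (6 * (r * (1 - r)))

/-- A `C¹` step profile. -/
noncomputable def SS (r : ℝ) : ℝ := ∫ s in (0 : ℝ)..r, bS s

lemma bS_cont : Continuous bS := by unfold bS; fun_prop
lemma bS_nn (r : ℝ) : 0 ≤ bS r := le_max_left _ _
lemma bS_le (r : ℝ) : bS r ≤ 3 / 2 := by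
  unfold bS
  apply max_le (by norm_num)
  nlinarith [sq_nonneg (r - 1 / 2)]
lemma bS_zero_left {r : ℝ} (h : r ≤ 0) : bS r = 0 := by
  unfold bS
  apply max_eq_left
  nlinarith
lemma bS_zero_right {r : ℝ} (h : 1 ≤ r) : bS r = 0 := by
  unfold bS
  apply max_eq_left
  nlinarith

lemma SS_deriv (r : ℝ) : HasDerivAt SS (bS r) r :=
  (bS_cont.integral_hasStrictDerivAt 0 r).hasDerivAt

lemma SS_zero {r : ℝ} (h : r ≤ 0) : SS r = 0 := by
  unfold SS
  have : ∫ s in (0 : ℝ)..r, bS s = ∫ s in (0 : ℝ)..r, (0 : ℝ) := by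
    apply intervalIntegral.integral_congr
    intro s hs
    rw [uIcc_of_ge h] at hs
    exact bS_zero_left hs.2
  rw [this]; simp

lemma SS_at_one : SS 1 = 1 := by
  unfold SS
  have : ∫ s in (0 : ℝ)..1, bS s = ∫ s in (0 : ℝ)..1, (6 * s ^ 1 - 6 * s ^ 2) := by
    apply intervalIntegral.integral_congr
    intro s hs
    rw [uIcc_of_le (by norm_num)] at hs
    unfold bS
    simp only []
    rw [max_eq_right]
    · ring
    · have h1 := hs.1
      have h2 := hs.2
      have : 0 ≤ s * (1 - s) := mul_nonneg h1 (by linarith)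
      linarith
  rw [this, intervalIntegral.integral_sub (by apply Continuous.intervalIntegrable; fun_prop)
    (by apply Continuous.intervalIntegrable; fun_prop)]
  simp only [intervalIntegral.integral_const_mul, integral_pow]
  norm_num

lemma SS_mono : Monotone SS := by
  apply monotone_of_deriv_nonneg
  · intro r; exact (SS_deriv r).differentiableAt
  · intro r; rw [(SS_deriv r).deriv]; exact bS_nn r

lemma SS_one {r : ℝ} (h : 1 ≤ r) : SS r = 1 := by
  have h1 : SS r = SS 1 + ∫ s in (1 : ℝ)..r, bS s := by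
    unfold SS
    rw [intervalIntegral.integral_add_adjacent_intervals] <;>
      exact bS_cont.intervalIntegrable _ _
  have h2 : ∫ s in (1 : ℝ)..r, bS s = ∫ s in (1 : ℝ)..r, (0 : ℝ) := by
    apply intervalIntegral.integral_congr
    intro s hs
    rw [uIcc_of_le h] at hs
    exact bS_zero_right hs.1
  rw [h1, SS_at_one, h2]; simp

lemma SS_nn (r : ℝ) : 0 ≤ SS r := by
  rcases le_total r 0 with h | h
  · rw [SS_zero h]
  · have := SS_mono h
    rwa [SS_zero le_rfl] at this

lemma SS_le (r : ℝ) : SS r ≤ 1 := by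
  rcases le_total r 1 with h | h
  · have := SS_mono h
    rwa [SS_at_one] at this
  · rw [SS_one h]

/-- The Gagliardo–Nirenberg–Sobolev inequality in the plane, in real form. -/
theorem gns : ∃ C : ℝ, 0 ≤ C ∧ ∀ T : E 2 → ℝ, ContDiff ℝ 1 T → HasCompactSupport T →
    ∫ x, T x ^ 2 ≤ C * (∫ x, ‖fderiv ℝ T x‖) ^ 2 := by
  refine ⟨(lintegralPowLePowLIntegralFDerivConst (volume : Measure (E 2)) 2 : NNReal),
    NNReal.coe_nonneg _, ?_⟩
  intro T hT hc
  have hp : Real.HolderConjugate ((Module.finrank ℝ (E 2) : ℕ) : ℝ) 2 := by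
    rw [finrank_euclideanSpace]
    simp only [Fintype.card_fin]
    push_cast
    exact Real.HolderConjugate.two_two
  have key := lintegral_pow_le_pow_lintegral_fderiv (volume : Measure (E 2)) hT hc hp
  have hint : Integrable (fderiv ℝ T) :=
    (hT.continuous_fderiv (by norm_num)).integrable_of_hasCompactSupport (hc.fderiv (𝕜 := ℝ))
  have hint2 : Integrable (fun x => T x ^ 2) := by
    apply (hT.continuous.pow 2).integrable_of_hasCompactSupport
    have h5 : HasCompactSupport (fun x => T x * T x) := hc.mul_right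
    have h6 : (fun x => T x * T x) = T ^ 2 := by funext x; simp [sq]
    exact h6 ▸ h5
  have h1 : ∫⁻ x, ‖T x‖ₑ ^ (2 : ℝ) = ENNReal.ofReal (∫ x, T x ^ 2) := by
    rw [ofReal_integral_eq_lintegral_ofReal hint2 (Eventually.of_forall fun x => sq_nonneg _)]
    apply lintegral_congr
    intro x
    rw [← ofReal_norm, ENNReal.ofReal_rpow_of_nonneg (norm_nonneg _) (by norm_num)]
    congr 1
    rw [Real.rpow_two, Real.norm_eq_abs, sq_abs]
  have h2 : ∫⁻ x, ‖fderiv ℝ T x‖ₑ = ENNReal.ofReal (∫ x, ‖fderiv ℝ T x‖) :=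
    (ofReal_integral_norm_eq_lintegral_enorm hint).symm
  rw [h1, h2, ENNReal.ofReal_rpow_of_nonneg (integral_nonneg fun x => norm_nonneg _) (by norm_num),
    Real.rpow_two] at key
  have h3 : ((lintegralPowLePowLIntegralFDerivConst (volume : Measure (E 2)) 2 : NNReal) : ENNReal) =
      ENNReal.ofReal ((lintegralPowLePowLIntegralFDerivConst (volume : Measure (E 2)) 2 : NNReal) : ℝ) := by
    rw [ENNReal.ofReal_coe_nnreal]
  rw [h3, ← ENNReal.ofReal_mul (NNReal.coe_nonneg _)] at key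
  exact (ENNReal.ofReal_le_ofReal_iff (by positivity)).1 key

variable {n : ℕ}

lemma norm_sq_le_sum (L : E n →L[ℝ] ℝ) : ‖L‖ ^ 2 ≤ ∑ i, (L (bv i)) ^ 2 := by
  have h0 : 0 ≤ ∑ i, (L (bv i)) ^ 2 := Finset.sum_nonneg fun i _ => sq_nonneg _
  have h1 : ‖L‖ ≤ Real.sqrt (∑ i, (L (bv i)) ^ 2) := by
    apply L.opNorm_le_bound (Real.sqrt_nonneg _)
    intro v
    have h2 : L v = ∑ i, v i * L (bv i) := by
      conv_lhs => rw [← (EuclideanSpace.basisFun (Fin n) ℝ).sum_repr v]
      rw [map_sum]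
      refine Finset.sum_congr rfl fun i _ => ?_
      rw [map_smul]
      rfl
    rw [h2, Real.norm_eq_abs]
    have h3 : (∑ i, v i * L (bv i)) ^ 2 ≤ (∑ i, v i ^ 2) * ∑ i, (L (bv i)) ^ 2 :=
      Finset.sum_mul_sq_le_sq_mul_sq _ _ _
    have h4 : ‖v‖ ^ 2 = ∑ i, v i ^ 2 := by
      rw [EuclideanSpace.norm_sq_eq]
      simp
    rw [← h4] at h3
    have h5 : |∑ i, v i * L (bv i)| ^ 2 ≤ (Real.sqrt (∑ i, (L (bv i)) ^ 2) * ‖v‖) ^ 2 := by
      rw [sq_abs, mul_pow, Real.sq_sqrt h0]; linarith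
    exact (abs_le_of_sq_le_sq' h5 (by positivity)).2 |>.trans' (le_refl _)
  calc ‖L‖ ^ 2 ≤ (Real.sqrt (∑ i, (L (bv i)) ^ 2)) ^ 2 := by gcongr
    _ = _ := Real.sq_sqrt h0

end Pool.Agent.H947R3
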