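import Pool.Agent.H947R3.Grad2
import Pool.Agent.H947R3.Lev

set_option autoImplicit false

open MeasureTheory Set Filter Topology Laplacian InnerProductSpace

namespace Pool.Agent.H947R3

variable {n : ℕ}

lemma pd_comp_add (w : E n → ℝ) (c : E n) (i : Fin n) (y : E n) :
    pd (fun y => w (y + c)) i y = pd w i (y + c) := by
  unfold pd
  rw [fderiv_comp_add_right]

lemma lap_comp_add {w : E n → ℝ} {c y : E n} (h : ContDiffAt ℝ 2 w (y + c)) :
    Δ (fun y => w (y + c)) y = Δ w (y + c) := by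
  have h1 : ContDiffAt ℝ 2 (fun y => w (y + c)) y :=
    h.comp y (contDiffAt_id.add contDiffAt_const)
  rw [lap_eq h1, lap_eq h]
  refine Finset.sum_congr rfl fun i _ => ?_
  have h2 : pd (fun y => w (y + c)) i = fun y => pd w i (y + c) := funext fun y => pd_comp_add w c i y
  rw [h2, pd_comp_add]

lemma line_deriv {v : E n → ℝ} {y : E n} {j : Fin n} {s : ℝ}
    (h : DifferentiableAt ℝ v (y + s • bv j)) :
    HasDerivAt (fun t : ℝ => v (y + t • bv j)) (pd v j (y + s • bv j)) s := by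
  have hline : HasDerivAt (fun t : ℝ => y + t • (bv j : E n)) (bv j) s := by
    simpa using ((hasDerivAt_id s).smul_const (bv j : E n)).const_add y
  exact h.hasFDerivAt.comp_hasDerivAt s hline

lemma shift_mem {x0 y : E n} {ρ h : ℝ} (hy : y ∈ QQ x0 ρ) (h0 : 0 ≤ h) (h1 : h ≤ ρ) (j : Fin n) :
    y + h • bv j ∈ QQ x0 (2 * ρ) := by
  intro k
  have h2 := hy k
  have h3 : (y + h • bv j) k - x0 k = (y k - x0 k) + h * (if k = j then 1 else 0) := by
    simp only [PiLp.add_apply, PiLp.smul_apply, smul_eq_mul, bv_apply]; ring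
  rw [h3]
  have h4 : |h * (if k = j then (1 : ℝ) else 0)| ≤ ρ := by
    split_ifs
    · rw [mul_one, abs_of_nonneg h0]; exact h1
    · rw [mul_zero, abs_zero]; linarith
  calc |y k - x0 k + h * (if k = j then 1 else 0)| ≤ |y k - x0 k| + |h * (if k = j then 1 else 0)| :=
        abs_add_le _ _
    _ ≤ 2 * ρ := by linarith

lemma QQ_mono {x0 : E n} {ρ ρ' : ℝ} (h : ρ ≤ ρ') : QQ x0 ρ ⊆ QQ x0 ρ' := fun _ hy j => (hy j).trans h

lemma shift_diff_le {v : E n → ℝ} {x0 : E n} {ρ M : ℝ} {j : Fin n}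
    (hd : ∀ x ∈ QQ x0 (2 * ρ), DifferentiableAt ℝ v x)
    (hM : ∀ x ∈ QQ x0 (2 * ρ), |pd v j x| ≤ M) {y : E n} (hy : y ∈ QQ x0 ρ) {h : ℝ}
    (h0 : 0 ≤ h) (h1 : h ≤ ρ) : |v (y + h • bv j) - v y| ≤ M * h := by
  have key := norm_image_sub_le_of_norm_deriv_le_segment' (f := fun t : ℝ => v (y + t • bv j))
    (f' := fun t => pd v j (y + t • bv j)) (a := 0) (b := h) (C := M)
    (fun t ht => (line_deriv (hd _ (shift_mem hy ht.1 (ht.2.trans h1) j))).hasDerivWithinAt)
    (fun t ht => hM _ (shift_mem hy ht.1 (ht.2.le.trans h1) j)) h ⟨h0, le_rfl⟩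
  simpa using key

/-- Interior estimate for second derivatives. -/
theorem hess_est {U : Set (E n)} (hU : IsOpen U) {w : E n → ℝ} (hw : ContDiffOn ℝ 2 w U)
    {x0 : E n} {ρ : ℝ} (hρ : 0 < ρ) (hQ : QQ x0 (2 * ρ) ⊆ U) {M N : ℝ} (j : Fin n)
    (hM : ∀ x ∈ QQ x0 (2 * ρ), |pd w j x| ≤ M) (hg : ContDiffOn ℝ 1 (Δ w) U)
    (hN : ∀ x ∈ QQ x0 (2 * ρ), |pd (Δ w) j x| ≤ N) (i : Fin n) :
    |pd (pd w i) j x0| ≤ n * M / ρ + N * ρ / 2 := by
  have hx0 : x0 ∈ U := hQ (mem_QQ_self x0 (by linarith))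
  have hpd : DifferentiableAt ℝ (pd w i) (x0 + (0 : ℝ) • bv j) := by
    have h1 : DifferentiableAt ℝ (pd w i) x0 :=
      ((contDiffOn_one_pd hU hw i).contDiffAt (hU.mem_nhds hx0)).differentiableAt (by norm_num)
    simpa using h1
  have hlim := (line_deriv hpd).tendsto_slope_zero_right
  have hlim2 := hlim.abs
  have hz : x0 + (0 : ℝ) • bv j = x0 := by simp
  rw [hz] at hlim2
  apply le_of_tendsto hlim2
  filter_upwards [Ioo_mem_nhdsGT hρ] with h hh
  set wh : E n → ℝ := fun y => h⁻¹ * (w (y + h • bv j) - w y) with hwh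
  set U' : Set (E n) := U ∩ (fun y => y + h • bv j) ⁻¹' U with hU'
  have hU'o : IsOpen U' := hU.inter (hU.preimage (by fun_prop))
  have hQU' : QQ x0 ρ ⊆ U' := fun y hy =>
    ⟨hQ (QQ_mono (by linarith) hy), hQ (shift_mem hy hh.1.le hh.2.le j)⟩
  have hwc : ContDiffOn ℝ 2 wh U' := by
    apply contDiffOn_const.mul
    apply ContDiffOn.sub _ (hw.mono inter_subset_left)
    exact hw.comp (contDiff_id.add contDiff_const).contDiffOn inter_subset_right
  have e1 : ∀ y ∈ QQ x0 ρ, |wh y| ≤ M := by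
    intro y hy
    have := shift_diff_le (v := w) (M := M) (j := j)
      (fun x hx => (hw.contDiffAt (hU.mem_nhds (hQ hx))).differentiableAt (by norm_num)) hM hy
      hh.1.le hh.2.le
    simp only [hwh]
    rw [abs_mul, abs_of_pos (inv_pos.2 hh.1), inv_mul_le_iff₀ hh.1]
    linarith
  have e2 : ∀ y ∈ QQ x0 ρ, |Δ wh y| ≤ N := by
    intro y hy
    have hy1 : ContDiffAt ℝ 2 w y := hw.contDiffAt (hU.mem_nhds (hQU' hy).1)
    have hy2 : ContDiffAt ℝ 2 w (y + h • bv j) := hw.contDiffAt (hU.mem_nhds (hQU' hy).2)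
    have hy3 : ContDiffAt ℝ 2 (fun y => w (y + h • bv j)) y :=
      hy2.comp y (contDiffAt_id.add contDiffAt_const)
    have h3 : Δ wh y = h⁻¹ * (Δ w (y + h • bv j) - Δ w y) := by
      have h4 : wh = (h⁻¹ : ℝ) • ((fun y => w (y + h • bv j)) - w) := by
        funext z; simp [hwh]
      have hsub : ContDiffAt ℝ 2 ((fun y => w (y + h • bv j)) - w) y := hy3.sub hy1
      rw [h4, laplacian_smul _ hsub, hy3.laplacian_sub hy1, lap_comp_add hy2, smul_eq_mul]
    have := shift_diff_le (v := Δ w) (M := N) (j := j)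
      (fun x hx => (hg.contDiffAt (hU.mem_nhds (hQ hx))).differentiableAt (by norm_num)) hN hy
      hh.1.le hh.2.le
    rw [h3, abs_mul, abs_of_pos (inv_pos.2 hh.1), inv_mul_le_iff₀ hh.1]
    linarith
  have key := grad_est hU'o hwc hρ hQU' e1 e2 i
  have h5 : pd wh i x0 = h⁻¹ * (pd w i (x0 + h • bv j) - pd w i x0) := by
    have hy1 : DifferentiableAt ℝ w x0 :=
      (hw.contDiffAt (hU.mem_nhds hx0)).differentiableAt (by norm_num)
    have hy2 : DifferentiableAt ℝ w (x0 + h • bv j) :=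
      (hw.contDiffAt (hU.mem_nhds (hQU' (mem_QQ_self x0 hρ.le)).2)).differentiableAt (by norm_num)
    have hy3 : DifferentiableAt ℝ (fun y => w (y + h • bv j)) x0 :=
      hy2.comp x0 (differentiableAt_id.add (differentiableAt_const _))
    have h6 := ((hy3.hasFDerivAt.sub hy1.hasFDerivAt).const_mul h⁻¹)
    have h7 : fderiv ℝ wh x0 = h⁻¹ • (fderiv ℝ (fun y => w (y + h • bv j)) x0 - fderiv ℝ w x0) :=
      h6.fderiv
    unfold pd
    rw [h7, fderiv_comp_add_right]
    simp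
  rw [h5] at key
  simpa using key

lemma clm_eq_sum (L : E n →L[ℝ] ℝ) :
    L = ∑ i, (L (bv i)) • (EuclideanSpace.proj i : E n →L[ℝ] ℝ) := by
  ext v
  have h2 : L v = ∑ i, v i * L (bv i) := by
    conv_lhs => rw [← (EuclideanSpace.basisFun (Fin n) ℝ).sum_repr v]
    rw [map_sum]
    refine Finset.sum_congr rfl fun i _ => ?_
    rw [map_smul]
    rfl
  rw [h2]
  simp [mul_comm]

/-- `C¹` limits. -/
theorem c1_limit {s : Set (E n)} (hs : IsOpen s) {v : ℕ → E n → ℝ} {V : E n → ℝ}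
    (hv : ∀ k, ContDiffOn ℝ 1 (v k) s)
    (hlim : ∀ x ∈ s, Tendsto (fun k => v k x) atTop (𝓝 (V x)))
    (hc : ∀ i, UniformCauchySeqOn (fun k => pd (v k) i) atTop s) :
    ContDiffOn ℝ 1 V s ∧
      ∀ i, ∀ x ∈ s, Tendsto (fun k => pd (v k) i x) atTop (𝓝 (pd V i x)) := by
  have h1 : ∀ i, ∃ g : E n → ℝ, ∀ x ∈ s, Tendsto (fun k => pd (v k) i x) atTop (𝓝 (g x)) := by
    intro i
    have : ∀ x, ∃ y, x ∈ s → Tendsto (fun k => pd (v k) i x) atTop (𝓝 y) := by
      intro x
      by_cases hx : x ∈ s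
      · obtain ⟨y, hy⟩ := cauchySeq_tendsto_of_complete ((hc i).cauchySeq hx)
        exact ⟨y, fun _ => hy⟩
      · exact ⟨0, fun h => absurd h hx⟩
    choose g hg using this
    exact ⟨g, hg⟩
  choose g hg using h1
  have hU : ∀ i, TendstoUniformlyOn (fun k => pd (v k) i) (g i) atTop s := fun i =>
    (hc i).tendstoUniformlyOn_of_tendsto (hg i)
  have hgc : ∀ i, ContinuousOn (g i) s := fun i =>
    (hU i).continuousOn (Frequently.of_forall fun k => continuousOn_pd hs (hv k) i)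
  set G : E n → (E n →L[ℝ] ℝ) := fun x => ∑ i, (g i x) • (EuclideanSpace.proj i : E n →L[ℝ] ℝ)
    with hG
  have hGb : ∀ x i, G x (bv i) = g i x := by
    intro x i
    simp only [hG, sum_apply, FunLike.coe_smul, Pi.smul_apply, smul_eq_mul]
    rw [Finset.sum_eq_single i]
    · simp [bv_apply]
    · intro j _ hj
      simp [bv_apply, hj]
    · simp
  have hUf : TendstoUniformlyOn (fun k => fderiv ℝ (v k)) G atTop s := by
    rw [Metric.tendstoUniformlyOn_iff]
    intro ε hε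
    have h2 : ∀ᶠ k in atTop, ∀ i, ∀ x ∈ s, dist (g i x) (pd (v k) i x) < ε / (n + 1) := by
      rw [eventually_all]
      intro i
      exact (Metric.tendstoUniformlyOn_iff.1 (hU i)) _ (by positivity)
    filter_upwards [h2] with k hk x hx
    have h3 : ‖G x - fderiv ℝ (v k) x‖ ≤ n * (ε / (n + 1)) := by
      have h4 : G x - fderiv ℝ (v k) x =
          ∑ i, (g i x - pd (v k) i x) • (EuclideanSpace.proj i : E n →L[ℝ] ℝ) := by
        conv_lhs => rw [clm_eq_sum (fderiv ℝ (v k) x)]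
        simp only [hG, ← Finset.sum_sub_distrib]
        refine Finset.sum_congr rfl fun i _ => ?_
        rw [sub_smul]
        rfl
      rw [h4]
      refine (norm_sum_le _ _).trans ?_
      calc ∑ i, ‖(g i x - pd (v k) i x) • (EuclideanSpace.proj i : E n →L[ℝ] ℝ)‖
          ≤ ∑ i : Fin n, ε / (n + 1) := by
            apply Finset.sum_le_sum
            intro i _
            rw [norm_smul]
            have h5 : ‖(EuclideanSpace.proj i : E n →L[ℝ] ℝ)‖ ≤ 1 := by
              apply ContinuousLinearMap.opNorm_le_bound _ zero_le_one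
              intro y
              rw [one_mul]
              exact PiLp.norm_apply_le y i
            have h6 := hk i x hx
            rw [dist_eq_norm] at h6
            calc ‖g i x - pd (v k) i x‖ * ‖(EuclideanSpace.proj i : E n →L[ℝ] ℝ)‖
                ≤ (ε / (n + 1)) * 1 := by
                  apply mul_le_mul h6.le h5 (norm_nonneg _) (by positivity)
              _ = _ := mul_one _
        _ = n * (ε / (n + 1)) := by simp
    rw [dist_eq_norm]
    refine h3.trans_lt ?_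
    rw [mul_div_assoc', div_lt_iff₀ (by positivity)]
    nlinarith
  have hder : ∀ x ∈ s, HasFDerivAt V (G x) x := by
    intro x hx
    exact hasFDerivAt_of_tendstoUniformlyOn hs hUf
      (fun k y hy => (((hv k).contDiffAt (hs.mem_nhds hy)).differentiableAt (by norm_num)).hasFDerivAt)
      hlim hx
  refine ⟨?_, ?_⟩
  · rw [show (1 : WithTop ℕ∞) = 0 + 1 from rfl, contDiffOn_succ_iff_fderiv_of_isOpen hs]
    refine ⟨fun x hx => (hder x hx).differentiableAt.differentiableWithinAt, by simp, ?_⟩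
    rw [contDiffOn_zero]
    have h1 : ContinuousOn G s :=
      continuousOn_finsetSum _ fun i _ => (hgc i).smul continuousOn_const
    exact h1.congr fun x hx => (hder x hx).fderiv
  · intro i x hx
    have h1 : pd V i x = g i x := by
      unfold pd
      rw [(hder x hx).fderiv, hGb]
    rw [h1]
    exact hg i x hx

/-- `C²` limits. -/
theorem c2_limit {s : Set (E n)} (hs : IsOpen s) {v : ℕ → E n → ℝ} {V : E n → ℝ}
    (hv : ∀ k, ContDiffOn ℝ 2 (v k) s)
    (hlim : ∀ x ∈ s, Tendsto (fun k => v k x) atTop (𝓝 (V x)))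
    (hc : ∀ i, UniformCauchySeqOn (fun k => pd (v k) i) atTop s)
    (hc2 : ∀ i j, UniformCauchySeqOn (fun k => pd (pd (v k) i) j) atTop s) :
    ContDiffOn ℝ 2 V s ∧ ∀ x ∈ s, Tendsto (fun k => Δ (v k) x) atTop (𝓝 (Δ V x)) := by
  obtain ⟨h1, h2⟩ := c1_limit hs (fun k => (hv k).of_le (by norm_num)) hlim hc
  have h3 : ∀ i, ContDiffOn ℝ 1 (pd V i) s ∧
      ∀ j, ∀ x ∈ s, Tendsto (fun k => pd (pd (v k) i) j x) atTop (𝓝 (pd (pd V i) j x)) := fun i =>
    c1_limit hs (fun k => contDiffOn_one_pd hs (hv k) i) (h2 i) (hc2 i)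
  have h4 : ContDiffOn ℝ 2 V s := by
    rw [show (2 : WithTop ℕ∞) = 1 + 1 from by norm_num, contDiffOn_succ_iff_fderiv_of_isOpen hs]
    refine ⟨h1.differentiableOn (by norm_num), by simp, ?_⟩
    have h5 : fderiv ℝ V = fun x => ∑ i, (pd V i x) • (EuclideanSpace.proj i : E n →L[ℝ] ℝ) := by
      funext x
      exact clm_eq_sum (fderiv ℝ V x)
    rw [h5]
    apply ContDiffOn.sum
    intro i _
    exact (h3 i).1.smul contDiffOn_const
  refine ⟨h4, ?_⟩
  intro x hx
  rw [lap_eq (h4.contDiffAt (hs.mem_nhds hx))]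
  have h6 : ∀ k, Δ (v k) x = ∑ i, pd (pd (v k) i) i x := fun k =>
    lap_eq ((hv k).contDiffAt (hs.mem_nhds hx))
  simp only [h6]
  exact tendsto_finsetSum _ fun i _ => (h3 i).2 i x hx

end Pool.Agent.H947R3
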