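import Pool.Agent.H947R3.Basic

set_option autoImplicit false

open MeasureTheory Set Filter Topology Laplacian InnerProductSpace

namespace Pool.Agent.H947R3

variable {n : ℕ}

lemma contDiff_of_tsupp {f : E n → ℝ} {k : WithTop ℕ∞}
    (hf : ∀ x ∈ tsupport f, ContDiffAt ℝ k f x) : ContDiff ℝ k f := by
  rw [contDiff_iff_contDiffAt]
  intro x
  by_cases h : x ∈ tsupport f
  · exact hf x h
  · exact contDiffAt_const.congr_of_eventuallyEq (notMem_tsupport_iff_eventuallyEq.1 h)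

lemma pd_eq_zero_of_notMem {ψ : E n → ℝ} {x : E n} (hx : x ∉ tsupport ψ) (i : Fin n) :
    pd ψ i x = 0 := by
  unfold pd
  rw [fderiv_of_notMem_tsupport _ hx]
  simp

/-- A positive supersolution of `-Δ - V` gives the quadratic form inequality. -/
theorem stab_of_pos {Ω : Set (E n)} (hΩ : IsOpen Ω) {z V : E n → ℝ}
    (hz : ContDiffOn ℝ 2 z Ω) (hpos : ∀ x ∈ Ω, 0 < z x) (hV : ContinuousOn V Ω)
    (hle : ∀ x ∈ Ω, V x * z x ≤ - Δ z x) {φ : E n → ℝ} (hφ : ContDiff ℝ 1 φ)
    (hc : HasCompactSupport φ) (hs : tsupport φ ⊆ Ω) :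
    ∫ x, V x * φ x ^ 2 ≤ ∫ x, ∑ i, (pd φ i x) ^ 2 := by
  set ψ : E n → ℝ := fun x => φ x * (φ x * (z x)⁻¹) with hψdef
  have hsub : tsupport ψ ⊆ tsupport φ := tsupport_mul_subset_left
  have hψs : tsupport ψ ⊆ Ω := hsub.trans hs
  have hψc : HasCompactSupport ψ := hc.mul_right
  have hψ : ContDiff ℝ 1 ψ := by
    apply contDiff_of_tsupp
    intro x hx
    have hxΩ := hψs hx
    have h1 : ContDiffAt ℝ 1 z x := (hz.contDiffAt (hΩ.mem_nhds hxΩ)).of_le (by norm_num)
    exact hφ.contDiffAt.mul (hφ.contDiffAt.mul (h1.inv (hpos x hxΩ).ne'))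
  have h0 : ∀ x, x ∉ Ω → φ x = 0 := fun x hx =>
    image_eq_zero_of_notMem_tsupport (fun h => hx (hs h))
  have hibp := ibp hΩ hz hψ hψc hψs
  have hφ2 : Continuous (fun x => φ x ^ 2) := hφ.continuous.pow 2
  have hφ2c : HasCompactSupport (fun x => φ x ^ 2) := by
    have : HasCompactSupport (fun x => φ x * φ x) := hc.mul_right
    simpa [sq] using this
  have hφ2s : tsupport (fun x => φ x ^ 2) ⊆ Ω := by
    have : tsupport (fun x => φ x * φ x) ⊆ tsupport φ := tsupport_mul_subset_left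
    have h2 : (fun x => φ x ^ 2) = fun x => φ x * φ x := by funext x; ring
    rw [h2]; exact this.trans hs
  have i1 : Integrable (fun x => V x * φ x ^ 2) :=
    integrable_mul_of_tsupport hΩ hV hφ2 hφ2c hφ2s
  have i2 : Integrable (fun x => Δ z x * ψ x) :=
    integrable_mul_of_tsupport hΩ (continuousOn_lap hΩ hz) hψ.continuous hψc hψs
  have i3 : Integrable (fun x => ∑ i, pd z i x * pd ψ i x) := by
    refine integrable_finsetSum _ fun i _ => ?_
    exact integrable_mul_of_tsupport hΩ (contDiffOn_one_pd hΩ hz i).continuousOn (continuous_pd hψ i)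
      (hasCompactSupport_pd hψc i) ((tsupport_pd_subset ψ i).trans hψs)
  have i4 : Integrable (fun x => ∑ i, (pd φ i x) ^ 2) := by
    refine integrable_finsetSum _ fun i _ => ?_
    apply ((continuous_pd hφ i).pow 2).integrable_of_hasCompactSupport
    have h5 : HasCompactSupport (fun x => pd φ i x * pd φ i x) := (hasCompactSupport_pd hc i).mul_right
    have h6 : (fun x => pd φ i x * pd φ i x) = pd φ i ^ 2 := by funext x; simp [sq]
    exact h6 ▸ h5
  calc ∫ x, V x * φ x ^ 2 ≤ ∫ x, - (Δ z x * ψ x) := by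
        apply integral_mono i1 i2.neg
        intro x
        show V x * φ x ^ 2 ≤ - (Δ z x * ψ x)
        by_cases hx : x ∈ Ω
        · have h1 := hle x hx
          have h2 := hpos x hx
          have h3 : (V x * z x) * (φ x ^ 2 / z x) ≤ (- Δ z x) * (φ x ^ 2 / z x) :=
            mul_le_mul_of_nonneg_right h1 (by positivity)
          have h4 : (V x * z x) * (φ x ^ 2 / z x) = V x * φ x ^ 2 := by field_simp
          have h5 : (- Δ z x) * (φ x ^ 2 / z x) = - (Δ z x * ψ x) := by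
            simp only [hψdef]; field_simp
          linarith
        · simp [hψdef, h0 x hx]
    _ = ∫ x, ∑ i, pd z i x * pd ψ i x := by rw [integral_neg, hibp]
    _ ≤ ∫ x, ∑ i, (pd φ i x) ^ 2 := by
        apply integral_mono i3 i4
        intro x
        apply Finset.sum_le_sum
        intro i _
        by_cases hx : x ∈ Ω
        · have hzd : DifferentiableAt ℝ z x :=
            (hz.contDiffAt (hΩ.mem_nhds hx)).differentiableAt (by norm_num)
          have hzx := hpos x hx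
          have hφd : DifferentiableAt ℝ φ x := hφ.differentiable (by norm_num) x
          have hzi : HasFDerivAt (fun y => (z y)⁻¹) (-(z x ^ 2)⁻¹ • fderiv ℝ z x) x :=
            (hasDerivAt_inv hzx.ne').comp_hasFDerivAt x hzd.hasFDerivAt
          have hder := hφd.hasFDerivAt.mul (hφd.hasFDerivAt.mul hzi)
          have hpd : pd ψ i x = φ x * (φ x * (-(z x ^ 2)⁻¹ * pd z i x) + (z x)⁻¹ * pd φ i x)
              + (φ x * (z x)⁻¹) * pd φ i x := by
            unfold pd
            have h7 : fderiv ℝ ψ x = _ := hder.fderiv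
            rw [h7]
            simp
            ring
          rw [hpd]
          have : (pd φ i x) ^ 2 - pd z i x * (φ x * (φ x * (-(z x ^ 2)⁻¹ * pd z i x) + (z x)⁻¹ * pd φ i x)
              + (φ x * (z x)⁻¹) * pd φ i x) = (pd φ i x - φ x * pd z i x / z x) ^ 2 := by
            field_simp
            ring
          nlinarith [sq_nonneg (pd φ i x - φ x * pd z i x / z x)]
        · have h1 : pd ψ i x = 0 := pd_eq_zero_of_notMem (fun h => hx (hψs h)) i
          rw [h1]; simp; positivity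

/-- Composition of `u` with a function vanishing near `0`, cut off outside `Ω`. -/
noncomputable def cmp (Ω : Set (E n)) (Θ : ℝ → ℝ) (u : E n → ℝ) : E n → ℝ :=
  Ω.indicator (fun x => Θ (u x))

/-- The standing assumptions on `u` that are used for compositions. -/
structure Adm (Ω : Set (E n)) (u : E n → ℝ) : Prop where
  opn : IsOpen Ω
  bdd : Bornology.IsBounded Ω
  c2 : ContDiffOn ℝ 2 u Ω
  cont : ContinuousOn u (closure Ω)
  pos : ∀ x ∈ Ω, 0 < u x
  lt : ∀ x ∈ Ω, u x < 1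
  bdry : ∀ x ∈ frontier Ω, u x = 0

section
variable {Ω : Set (E n)} {u : E n → ℝ} (h : Adm Ω u) {Θ : ℝ → ℝ} {ε : ℝ}
include h

lemma Adm.superlevel_closed (hε : 0 < ε) : IsCompact {x | x ∈ Ω ∧ ε ≤ u x} := by
  have h1 : {x | x ∈ Ω ∧ ε ≤ u x} = closure Ω ∩ u ⁻¹' (Ici ε) := by
    ext x
    constructor
    · rintro ⟨h1, h2⟩
      exact ⟨subset_closure h1, h2⟩
    · rintro ⟨h1, h2⟩
      refine ⟨?_, h2⟩
      by_contra hx
      have : x ∈ frontier Ω := by
        rw [frontier, h.opn.interior_eq]; exact ⟨h1, hx⟩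
      have h3 := h.bdry x this
      have h4 : ε ≤ u x := h2
      linarith
  rw [h1]
  have h2 : IsClosed (closure Ω ∩ u ⁻¹' (Ici ε)) :=
    h.cont.preimage_isClosed_of_isClosed isClosed_closure isClosed_Ici
  exact h.bdd.isCompact_closure.of_isClosed_subset h2 inter_subset_left

lemma Adm.tsupport_cmp (hε : 0 < ε) (hz : ∀ t, 0 < t → t < ε → Θ t = 0) :
    tsupport (cmp Ω Θ u) ⊆ {x | x ∈ Ω ∧ ε ≤ u x} := by
  apply closure_minimal _ (h.superlevel_closed hε).isClosed
  intro x hx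
  have hxΩ : x ∈ Ω := by
    by_contra hcon
    exact hx (by simp [cmp, hcon])
  refine ⟨hxΩ, ?_⟩
  by_contra hcon
  push Not at hcon
  apply hx
  simp [cmp, hxΩ, hz _ (h.pos x hxΩ) hcon]

lemma Adm.hasCompactSupport_cmp (hε : 0 < ε) (hz : ∀ t, 0 < t → t < ε → Θ t = 0) :
    HasCompactSupport (cmp Ω Θ u) :=
  (h.superlevel_closed hε).of_isClosed_subset (isClosed_tsupport _) (h.tsupport_cmp hε hz)

lemma Adm.tsupport_cmp_subset (hε : 0 < ε) (hz : ∀ t, 0 < t → t < ε → Θ t = 0) :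
    tsupport (cmp Ω Θ u) ⊆ Ω := (h.tsupport_cmp hε hz).trans (fun _ hx => hx.1)

omit h in
lemma cmp_eventuallyEq {x : E n} (hΩ : IsOpen Ω) (hx : x ∈ Ω) :
    cmp Ω Θ u =ᶠ[𝓝 x] fun y => Θ (u y) := by
  filter_upwards [hΩ.mem_nhds hx] with y hy
  simp [cmp, hy]

lemma Adm.contDiff_cmp (hε : 0 < ε) (hz : ∀ t, 0 < t → t < ε → Θ t = 0)
    (hΘ : ContDiffOn ℝ 1 Θ (Ioo 0 1)) : ContDiff ℝ 1 (cmp Ω Θ u) := by
  apply contDiff_of_tsupp
  intro x hx
  have hxΩ := h.tsupport_cmp_subset hε hz hx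
  have h1 : ContDiffAt ℝ 1 u x := (h.c2.contDiffAt (h.opn.mem_nhds hxΩ)).of_le (by norm_num)
  have h2 : ContDiffAt ℝ 1 Θ (u x) := hΘ.contDiffAt (isOpen_Ioo.mem_nhds ⟨h.pos x hxΩ, h.lt x hxΩ⟩)
  exact (h2.comp x h1).congr_of_eventuallyEq (cmp_eventuallyEq h.opn hxΩ)

lemma Adm.pd_cmp {θ' : ℝ} {x : E n} (hx : x ∈ Ω) (hΘ : HasDerivAt Θ θ' (u x)) (i : Fin n) :
    pd (cmp Ω Θ u) i x = θ' * pd u i x := by
  unfold pd
  rw [(cmp_eventuallyEq h.opn hx).fderiv_eq]
  have h1 : DifferentiableAt ℝ u x :=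
    (h.c2.contDiffAt (h.opn.mem_nhds hx)).differentiableAt (by norm_num)
  have h2 := hΘ.comp_hasFDerivAt x h1.hasFDerivAt
  have h3 : HasFDerivAt (fun y => Θ (u y)) (θ' • fderiv ℝ u x) x := h2
  rw [h3.fderiv]
  simp

/-- The energy identity. -/
theorem Adm.energy (hε : 0 < ε) (hz : ∀ t, 0 < t → t < ε → Θ t = 0)
    {k : ℝ → ℝ} (hk : ∀ t ∈ Ioo (0 : ℝ) 1, HasDerivAt Θ (k t) t) (hkc : ContinuousOn k (Ioo 0 1)) :
    ∫ x in Ω, k (u x) * ∑ i, (pd u i x) ^ 2 = ∫ x in Ω, - Δ u x * Θ (u x) := by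
  have hΘ : ContDiffOn ℝ 1 Θ (Ioo 0 1) := by
    have h1 : ∀ t ∈ Ioo (0 : ℝ) 1, deriv Θ t = k t := fun t ht => (hk t ht).deriv
    rw [show (1 : WithTop ℕ∞) = 0 + 1 from rfl, contDiffOn_succ_iff_deriv_of_isOpen isOpen_Ioo]
    refine ⟨fun t ht => (hk t ht).differentiableAt.differentiableWithinAt, by simp, ?_⟩
    exact contDiffOn_zero.2 (hkc.congr h1)
  have hT := h.contDiff_cmp hε hz hΘ
  have hibp := ibp h.opn h.c2 hT (h.hasCompactSupport_cmp hε hz) (h.tsupport_cmp_subset hε hz)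
  rw [← integral_indicator h.opn.measurableSet, ← integral_indicator h.opn.measurableSet]
  have e1 : (fun x => ∑ i, pd u i x * pd (cmp Ω Θ u) i x) =
      Ω.indicator (fun x => k (u x) * ∑ i, (pd u i x) ^ 2) := by
    funext x
    by_cases hx : x ∈ Ω
    · rw [indicator_of_mem hx, Finset.mul_sum]
      refine Finset.sum_congr rfl fun i _ => ?_
      rw [h.pd_cmp hx (hk _ ⟨h.pos x hx, h.lt x hx⟩)]
      ring
    · rw [indicator_of_notMem hx]
      refine Finset.sum_eq_zero fun i _ => ?_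
      rw [pd_eq_zero_of_notMem (fun hh => hx (h.tsupport_cmp_subset hε hz hh)) i, mul_zero]
  have e2 : (fun x => Δ u x * cmp Ω Θ u x) = Ω.indicator (fun x => Δ u x * Θ (u x)) := by
    funext x
    by_cases hx : x ∈ Ω
    · rw [indicator_of_mem hx]; simp [cmp, hx]
    · rw [indicator_of_notMem hx]; simp [cmp, hx]
  rw [e1, e2] at hibp
  rw [hibp, ← integral_neg]
  congr 1
  funext x
  by_cases hx : x ∈ Ω
  · simp [indicator_of_mem hx]
  · simp [indicator_of_notMem hx]

end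

end Pool.Agent.H947R3
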